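import Pool.Agent.X187.EA.Gibbs

set_option autoImplicit false

/-! Linearly independent Gibbs states. -/

open MeasureTheory Filter Topology Set
open scoped ENNReal

namespace Pool.Agent.X187.EA

variable {S I : Type} [DecidableEq S] [Countable S] [DecidableEq I] (Y : Sys S I)

/-- there are `m` linearly independent Gibbs states -/
def HasN (u : I → ℝ) (m : ℕ) : Prop :=
  ∃ π : Fin m → Measure (S → Bool), (∀ i, IsG Y u (π i)) ∧
    LinearIndependent ℝ (fun (i : Fin m) (f : C(S → Bool, ℝ)) => ∫ σ, f σ ∂(π i))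

omit [Countable S] in
theorem mul_int {π : Measure (S → Bool)} (h : (S → Bool) → ℝ) (f : C(S → Bool, ℝ)) :
    ∫ σ, Real.exp (h σ) * (Real.exp (-(h σ)) * f σ) ∂π = ∫ σ, f σ ∂π := by
  refine integral_congr_ae (ae_of_all _ fun σ => ?_)
  show Real.exp (h σ) * (Real.exp (-(h σ)) * f σ) = f σ
  rw [← mul_assoc, ← Real.exp_add, add_neg_cancel, Real.exp_zero, one_mul]

variable {Y}

theorem HasN.modify {u v : I → ℝ} {Q : Finset I} (huv : ∀ i, i ∉ Q → v i = u i) {m : ℕ}
    (h : HasN Y u m) : HasN Y v m := by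
  obtain ⟨π, hπ, hli⟩ := h
  refine ⟨fun i => (π i).tilted (hh Y (fun i => v i - u i) Q), fun i => ((hπ i).tilt huv).1, ?_⟩
  rw [Fintype.linearIndependent_iff] at hli ⊢
  intro c hc i
  set t : I → ℝ := fun i => v i - u i with ht
  have hch := continuous_hh Y t Q
  have h1 : ∑ i, (c i / ∫ σ, Real.exp (hh Y t Q σ) ∂(π i)) •
      (fun f : C(S → Bool, ℝ) => ∫ σ, f σ ∂(π i)) = 0 := by
    funext f
    have hcont : Continuous (fun σ => Real.exp (-(hh Y t Q σ)) * f σ) :=
      (Real.continuous_exp.comp hch.neg).mul f.continuous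
    have h2 := congrFun hc ⟨fun σ => Real.exp (-(hh Y t Q σ)) * f σ, hcont⟩
    simp only [Finset.sum_apply, Pi.smul_apply, smul_eq_mul, Pi.zero_apply,
      ContinuousMap.coe_mk] at h2 ⊢
    rw [← h2]
    refine Finset.sum_congr rfl fun j _ => ?_
    rw [((hπ j).tilt huv).2.2, mul_int]
    ring
  have h3 := hli _ h1 i
  have h4 := ((hπ i).tilt huv).2.1
  rcases div_eq_zero_iff.1 h3 with h5 | h5
  · exact h5
  · exact absurd h5 h4.ne'

/-- integration as a linear functional -/
noncomputable def ev (π : Measure (S → Bool)) [IsProbabilityMeasure π] : C(S → Bool, ℝ) →ₗ[ℝ] ℝ where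
  toFun f := ∫ σ, f σ ∂π
  map_add' f g := integral_add (integrable_cont f.continuous) (integrable_cont g.continuous)
  map_smul' c _ := integral_const_mul c _

omit [DecidableEq S] in
/-- dual families -/
theorem exists_dual {m : ℕ} {π : Fin m → Measure (S → Bool)} (hp : ∀ i, IsProbabilityMeasure (π i))
    (hli : LinearIndependent ℝ (fun (i : Fin m) (f : C(S → Bool, ℝ)) => ∫ σ, f σ ∂(π i))) :
    ∃ x : Fin m → C(S → Bool, ℝ), ∀ i j, ∫ σ, x j σ ∂(π i) = if i = j then 1 else 0 := by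
  set Φ : C(S → Bool, ℝ) →ₗ[ℝ] (Fin m → ℝ) := LinearMap.pi fun i => ev (π i) with hΦ
  have hsurj : LinearMap.range Φ = ⊤ := by
    by_contra hne
    obtain ⟨g, hg0, hg⟩ := Submodule.exists_le_ker_of_lt_top _ (lt_top_iff_ne_top.2 hne)
    apply hg0
    have hgc : ∀ p : Fin m → ℝ, g p = ∑ i, g (Pi.single i 1) * p i := by
      intro p
      conv_lhs => rw [pi_eq_sum_univ p]
      rw [map_sum]
      refine Finset.sum_congr rfl fun i _ => ?_
      rw [map_smul, smul_eq_mul, mul_comm]
      congr 2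
      funext j
      simp [Pi.single_apply, eq_comm]
    rw [Fintype.linearIndependent_iff] at hli
    have h1 : ∑ i, g (Pi.single i 1) • (fun f : C(S → Bool, ℝ) => ∫ σ, f σ ∂(π i)) = 0 := by
      funext f
      have h2 : g (Φ f) = 0 := hg ⟨f, rfl⟩
      rw [hgc] at h2
      simp only [Finset.sum_apply, Pi.smul_apply, smul_eq_mul, Pi.zero_apply]
      exact h2
    have h3 := hli _ h1
    apply LinearMap.ext
    intro p
    rw [hgc p]
    simp [h3]
  have hex : ∀ j : Fin m, ∃ x : C(S → Bool, ℝ), Φ x = Pi.single j 1 := fun j => by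
    have : (Pi.single j 1 : Fin m → ℝ) ∈ LinearMap.range Φ := by rw [hsurj]; trivial
    exact this
  choose x hx using hex
  refine ⟨x, fun i j => ?_⟩
  have h1 := congrFun (hx j) i
  rw [Pi.single_apply] at h1
  exact h1

/-- linear combinations -/
noncomputable def lc {m : ℕ} (x : Fin m → C(S → Bool, ℝ)) (c : Fin m → ℝ) : C(S → Bool, ℝ) :=
  ∑ j, c j • x j

omit [DecidableEq S] [Countable S] in
theorem lc_neg {m : ℕ} (x : Fin m → C(S → Bool, ℝ)) (c : Fin m → ℝ) : lc x (-c) = - lc x c := by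
  unfold lc
  rw [← Finset.sum_neg_distrib]
  exact Finset.sum_congr rfl fun j _ => by rw [Pi.neg_apply, neg_smul]

omit [DecidableEq S] [Countable S] in
theorem continuous_lc {m : ℕ} (x : Fin m → C(S → Bool, ℝ)) : Continuous (lc x) := by
  unfold lc
  exact continuous_finsetSum _ fun j _ => (continuous_apply j).smul continuous_const

omit [DecidableEq S] in
theorem int_lc {m : ℕ} (x : Fin m → C(S → Bool, ℝ)) (c : Fin m → ℝ) (π : Measure (S → Bool))
    [IsProbabilityMeasure π] : ∫ σ, lc x c σ ∂π = ∑ j, c j * ∫ σ, x j σ ∂π := by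
  have h : ev π (lc x c) = ∑ j, c j * ev π (x j) := by
    unfold lc
    rw [map_sum]
    exact Finset.sum_congr rfl fun j _ => by rw [map_smul, smul_eq_mul]
  exact h

variable (X : Exh S)

/-- lower bound from a dual family -/
theorem HasN.lower {u : I → ℝ} {m : ℕ} (h : HasN Y u m) :
    ∃ x : Fin m → C(S → Bool, ℝ), ∀ c : Fin m → ℝ,
      ‖c‖ ≤ max (Mi Y X u (lc x c)) (Mi Y X u (lc x (-c))) := by
  obtain ⟨π, hπ, hli⟩ := h
  obtain ⟨x, hx⟩ := exists_dual (fun i => (hπ i).1) hli
  refine ⟨x, fun c => ?_⟩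
  have hval : ∀ (i : Fin m) (c : Fin m → ℝ), ∫ σ, lc x c σ ∂(π i) = c i := by
    intro i c
    have := (hπ i).1
    rw [int_lc]
    simp [hx]
  have hnn : 0 ≤ max (Mi Y X u (lc x c)) (Mi Y X u (lc x (-c))) := by
    obtain ⟨ρ, hρ, -⟩ := exists_max Y X u (lc x c)
    have := hρ.1
    have h1 := hρ.le_Mi X (lc x c)
    have h2 := hρ.le_Mi X (lc x (-c))
    rw [lc_neg] at h2
    have h3 : ∫ σ, (-(lc x c)) σ ∂ρ = - ∫ σ, lc x c σ ∂ρ := integral_neg _
    rw [h3] at h2
    by_contra hcon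
    push Not at hcon
    have h4 := (le_max_left (Mi Y X u (lc x c)) (Mi Y X u (lc x (-c)))).trans_lt hcon
    have h5 := (le_max_right (Mi Y X u (lc x c)) (Mi Y X u (lc x (-c)))).trans_lt hcon
    rw [lc_neg] at h5
    linarith
  rw [pi_norm_le_iff_of_nonneg hnn]
  intro i
  rw [Real.norm_eq_abs, abs_le']
  constructor
  · refine le_trans ?_ (le_max_left _ _)
    rw [← hval i c]
    exact (hπ i).le_Mi X _
  · refine le_trans ?_ (le_max_right _ _)
    have h1 := (hπ i).le_Mi X (lc x (-c))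
    rw [hval i (-c)] at h1
    exact h1

theorem HasN.of_lower {v : I → ℝ} {m : ℕ} (x : Fin m → C(S → Bool, ℝ))
    (hx : ∀ c : Fin m → ℝ, ‖c‖ = 1 → 0 < max (Mi Y X v (lc x c)) (Mi Y X v (lc x (-c)))) :
    HasN Y v m := by
  set P : Set (Fin m → ℝ) := {p | ∃ π : Measure (S → Bool), IsG Y v π ∧
    ∀ j, p j = ∫ σ, x j σ ∂π} with hP
  have hspan : Submodule.span ℝ P = ⊤ := by
    by_contra hne
    obtain ⟨g, hg0, hg⟩ := Submodule.exists_le_ker_of_lt_top _ (lt_top_iff_ne_top.2 hne)
    have hgc : ∀ p : Fin m → ℝ, g p = ∑ i, g (Pi.single i 1) * p i := by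
      intro p
      conv_lhs => rw [pi_eq_sum_univ p]
      rw [map_sum]
      refine Finset.sum_congr rfl fun i _ => ?_
      rw [map_smul, smul_eq_mul, mul_comm]
      congr 2
      funext j
      simp [Pi.single_apply, eq_comm]
    set c0 : Fin m → ℝ := fun i => g (Pi.single i 1) with hc0
    have hc0ne : c0 ≠ 0 := by
      intro h0
      apply hg0
      apply LinearMap.ext
      intro p
      rw [hgc p]
      have h1 : ∀ i, g (Pi.single i 1) = 0 := fun i => congrFun h0 i
      simp [h1]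
    have hn : 0 < ‖c0‖ := norm_pos_iff.2 hc0ne
    set c : Fin m → ℝ := (‖c0‖)⁻¹ • c0 with hc
    have hcn : ‖c‖ = 1 := by
      rw [hc, norm_smul, norm_inv, norm_norm, inv_mul_cancel₀ hn.ne']
    have hz : ∀ π : Measure (S → Bool), IsG Y v π → ∫ σ, lc x c σ ∂π = 0 := by
      intro π hπ
      have := hπ.1
      have h1 : g (fun j => ∫ σ, x j σ ∂π) = 0 :=
        hg (Submodule.subset_span ⟨π, hπ, fun j => rfl⟩)
      rw [hgc] at h1
      rw [int_lc, hc]
      have h2 : ∑ j, ((‖c0‖)⁻¹ • c0) j * ∫ σ, x j σ ∂π =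
          (‖c0‖)⁻¹ * ∑ i, g (Pi.single i 1) * ∫ σ, x i σ ∂π := by
        rw [Finset.mul_sum]
        refine Finset.sum_congr rfl fun j _ => ?_
        rw [Pi.smul_apply, smul_eq_mul, hc0]
        ring
      rw [h2, h1, mul_zero]
    have h3 := hx c hcn
    obtain ⟨π1, hπ1, e1⟩ := exists_max Y X v (lc x c)
    obtain ⟨π2, hπ2, e2⟩ := exists_max Y X v (lc x (-c))
    have hneg : ∫ σ, lc x (-c) σ ∂π2 = 0 := by
      rw [lc_neg]
      have h4 : ∫ σ, (-(lc x c)) σ ∂π2 = - ∫ σ, lc x c σ ∂π2 := integral_neg _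
      rw [h4, hz π2 hπ2, neg_zero]
    rw [← e1, ← e2, hz π1 hπ1, hneg, max_self] at h3
    exact lt_irrefl _ h3
  obtain ⟨p, hp1, hp2, hp3⟩ := Submodule.exists_fun_fin_finrank_span_eq ℝ P
  have hdim : Module.finrank ℝ (Submodule.span ℝ P) = m := by
    rw [hspan, finrank_top]
    simp
  choose π hπ hπp using hp1
  have hfin : LinearIndependent ℝ (fun (i : Fin (Module.finrank ℝ (Submodule.span ℝ P)))
      (f : C(S → Bool, ℝ)) => ∫ σ, f σ ∂(π i)) := by
    let L : (C(S → Bool, ℝ) → ℝ) →ₗ[ℝ] (Fin m → ℝ) :=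
      { toFun := fun φ j => φ (x j), map_add' := fun _ _ => rfl, map_smul' := fun _ _ => rfl }
    apply LinearIndependent.of_comp L
    have : (L ∘ fun (i : Fin (Module.finrank ℝ (Submodule.span ℝ P)))
      (f : C(S → Bool, ℝ)) => ∫ σ, f σ ∂(π i)) = p := by
      funext i j
      exact (hπp i j).symm
    rw [this]
    exact hp3
  refine ⟨fun i => π (Fin.cast hdim.symm i), fun i => hπ _, ?_⟩
  exact hfin.comp (Fin.cast hdim.symm) (Fin.cast_injective _)

/-- **Stability.** -/
theorem HasN.transfer {u : I → ℝ} {m : ℕ} (h : HasN Y u m) :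
    ∃ K : Set C(S → Bool, ℝ), IsCompact K ∧ ∀ v : I → ℝ,
      (∀ f ∈ K, |Mi Y X v f - Mi Y X u f| ≤ 1 / 2) → HasN Y v m := by
  obtain ⟨x, hx⟩ := h.lower X
  refine ⟨lc x '' Metric.sphere 0 1, (isCompact_sphere 0 1).image (continuous_lc x),
    fun v hv => HasN.of_lower X x fun c hc => ?_⟩
  have h1 := hx c
  rw [hc] at h1
  have h2 := hv (lc x c) ⟨c, by simp [hc], rfl⟩
  have h3 := hv (lc x (-c)) ⟨-c, by simp [hc], rfl⟩
  rw [abs_le] at h2 h3
  rcases le_max_iff.1 h1 with h4 | h4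
  · exact lt_max_of_lt_left (by linarith)
  · exact lt_max_of_lt_right (by linarith)

/-- uniqueness -/
theorem unique_iff (u : I → ℝ) (X : Exh S) :
    (∃! π : Measure (S → Bool), IsG Y u π) ↔ ¬ HasN Y u 2 := by
  constructor
  · rintro ⟨π0, h0, h1⟩ ⟨π, hπ, hli⟩
    have e : π 0 = π 1 := (h1 _ (hπ 0)).trans (h1 _ (hπ 1)).symm
    have := hli.injective (a₁ := (0 : Fin 2)) (a₂ := 1) (by simp only [e])
    exact absurd this (by decide)
  · intro h
    obtain ⟨π0, h0, -⟩ := exists_max Y X u 0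
    refine ⟨π0, h0, fun π hπ => ?_⟩
    by_contra hne
    apply h
    have := h0.1
    have := hπ.1
    obtain ⟨f, hf⟩ : ∃ f : C(S → Bool, ℝ), ∫ σ, f σ ∂π ≠ ∫ σ, f σ ∂π0 := by
      by_contra hcon
      push Not at hcon
      apply hne
      haveI : TopologicalSpace.MetrizableSpace (S → Bool) :=
        TopologicalSpace.metrizableSpace_of_t3_secondCountable _
      letI : MetricSpace (S → Bool) := TopologicalSpace.metrizableSpaceMetric _
      apply ext_of_forall_integral_eq_of_IsFiniteMeasure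
      intro f
      exact hcon f.toContinuousMap
    refine ⟨![π, π0], ?_, ?_⟩
    · intro i
      fin_cases i
      · exact hπ
      · exact h0
    · rw [Fintype.linearIndependent_iff]
      intro c hc
      have e1 := congrFun hc 1
      have e2 := congrFun hc f
      simp only [Fin.sum_univ_two, Pi.add_apply, Pi.smul_apply, Matrix.cons_val_zero,
        Matrix.cons_val_one, smul_eq_mul, Pi.zero_apply, ContinuousMap.one_apply,
        integral_const, probReal_univ, mul_one] at e1 e2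
      have e3 : c 0 * (∫ σ, f σ ∂π - ∫ σ, f σ ∂π0) = 0 := by
        have : c 1 = - c 0 := by linarith
        rw [this] at e2
        linarith
      have e4 : c 0 = 0 := by
        rcases mul_eq_zero.1 e3 with h5 | h5
        · exact h5
        · exact absurd (sub_eq_zero.1 h5) hf
      intro i
      fin_cases i
      · exact e4
      · show c 1 = 0
        linarith

end Pool.Agent.X187.EA
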