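import Pool.Agent.X187.EA.Spec

set_option autoImplicit false

/-! Maxima over boundary conditions, Gibbs states, tilting. -/

open MeasureTheory Filter Topology Set
open scoped ENNReal

namespace Pool.Agent.X187.EA

variable {S I : Type} [DecidableEq S] [Countable S] (Y : Sys S I)

/-- finite-volume Gibbs measure with boundary condition `σ` -/
noncomputable def PV (u : I → ℝ) (Λ : Finset S) (σ : S → Bool) : Measure (S → Bool) :=
  ∑ B ∈ Λ.powerset, ENNReal.ofReal (Real.exp (HH Y u Λ (fl B σ)) /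
    EE Λ (fun τ => Real.exp (HH Y u Λ τ)) σ) • Measure.dirac (fl B σ)

theorem int_PV (u : I → ℝ) (Λ : Finset S) (f : (S → Bool) → ℝ) (σ : S → Bool) :
    ∫ τ, f τ ∂(PV Y u Λ σ) = gg Y u Λ f σ := by
  have hZ : 0 < EE Λ (fun τ => Real.exp (HH Y u Λ τ)) σ := EE_pos (fun τ => Real.exp_pos _) σ
  unfold PV
  rw [integral_finsetSum_measure]
  · simp only [integral_smul_measure, integral_dirac]
    unfold gg
    have e : EE Λ (fun τ => Real.exp (HH Y u Λ τ) * f τ) σ =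
      ∑ B ∈ Λ.powerset, Real.exp (HH Y u Λ (fl B σ)) * f (fl B σ) := rfl
    rw [e, Finset.sum_div]
    refine Finset.sum_congr rfl fun B _ => ?_
    rw [ENNReal.toReal_ofReal (by positivity), smul_eq_mul]
    ring
  · intro B _
    exact (integrable_dirac (by simp)).smul_measure ENNReal.ofReal_ne_top

instance prob_PV (u : I → ℝ) (Λ : Finset S) (σ : S → Bool) :
    IsProbabilityMeasure (PV Y u Λ σ) := by
  have hZ : 0 < EE Λ (fun τ => Real.exp (HH Y u Λ τ)) σ := EE_pos (fun τ => Real.exp_pos _) σ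
  constructor
  unfold PV
  rw [Measure.finsetSum_apply]
  simp only [Measure.smul_apply, measure_univ, smul_eq_mul, mul_one]
  rw [← ENNReal.ofReal_sum_of_nonneg (fun _ _ => by positivity), ← Finset.sum_div]
  have : ∑ B ∈ Λ.powerset, Real.exp (HH Y u Λ (fl B σ)) =
    EE Λ (fun τ => Real.exp (HH Y u Λ τ)) σ := rfl
  rw [this, div_self hZ.ne', ENNReal.ofReal_one]

omit [DecidableEq S] in
theorem integrable_cont {P : Measure (S → Bool)} [IsFiniteMeasure P] {f : (S → Bool) → ℝ}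
    (hf : Continuous f) : Integrable f P := by
  obtain ⟨C, hC⟩ := (isCompact_univ (X := S → Bool)).exists_bound_of_continuousOn hf.continuousOn
  exact Integrable.of_bound hf.aestronglyMeasurable C (ae_of_all _ fun x => hC x (mem_univ x))

omit [DecidableEq S] [Countable S] in
theorem abs_int_le {P : Measure (S → Bool)} [IsProbabilityMeasure P] (f : C(S → Bool, ℝ)) :
    |∫ τ, f τ ∂P| ≤ ‖f‖ := by
  have := norm_integral_le_of_norm_le_const (μ := P) (f := fun τ => f τ) (C := ‖f‖)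
    (ae_of_all _ fun x => f.norm_coe_le_norm x)
  simpa using this

theorem abs_gg_le (u : I → ℝ) (Λ : Finset S) (f : C(S → Bool, ℝ)) (σ : S → Bool) :
    |gg Y u Λ f σ| ≤ ‖f‖ := by
  rw [← int_PV]
  exact abs_int_le f

theorem gg_sub (u : I → ℝ) (Λ : Finset S) (f f' : C(S → Bool, ℝ)) (σ : S → Bool) :
    gg Y u Λ f σ - gg Y u Λ f' σ = gg Y u Λ (f - f' : C(S → Bool, ℝ)) σ := by
  rw [← int_PV, ← int_PV, ← int_PV,
    ← integral_sub (integrable_cont f.continuous) (integrable_cont f'.continuous)]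
  rfl

/-- maximum over the boundary conditions -/
noncomputable def MM (u : I → ℝ) (Λ : Finset S) (f : C(S → Bool, ℝ)) : ℝ := ⨆ σ, gg Y u Λ f σ

theorem bdd_gg (u : I → ℝ) (Λ : Finset S) (f : C(S → Bool, ℝ)) :
    BddAbove (range (gg Y u Λ f)) := ⟨‖f‖, by
  rintro _ ⟨σ, rfl⟩
  exact (abs_le.1 (abs_gg_le Y u Λ f σ)).2⟩

theorem gg_le_MM (u : I → ℝ) (Λ : Finset S) (f : C(S → Bool, ℝ)) (σ : S → Bool) :
    gg Y u Λ f σ ≤ MM Y u Λ f := le_ciSup (bdd_gg Y u Λ f) σ

theorem MM_attained (u : I → ℝ) (Λ : Finset S) (f : C(S → Bool, ℝ)) :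
    ∃ σ, gg Y u Λ f σ = MM Y u Λ f := by
  obtain ⟨σ, -, hσ⟩ := (isCompact_univ (X := S → Bool)).exists_isMaxOn ⟨fun _ => true, mem_univ _⟩
    (continuous_gg' Y u Λ f.continuous).continuousOn
  exact ⟨σ, le_antisymm (gg_le_MM Y u Λ f σ) (ciSup_le fun τ => hσ (mem_univ τ))⟩

theorem abs_MM_le (u : I → ℝ) (Λ : Finset S) (f : C(S → Bool, ℝ)) : |MM Y u Λ f| ≤ ‖f‖ := by
  obtain ⟨σ, hσ⟩ := MM_attained Y u Λ f
  rw [← hσ]
  exact abs_gg_le Y u Λ f σ

theorem gg_mono (u : I → ℝ) (Λ : Finset S) {f f' : (S → Bool) → ℝ} (h : ∀ τ, f τ ≤ f' τ)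
    (σ : S → Bool) : gg Y u Λ f σ ≤ gg Y u Λ f' σ := by
  unfold gg
  refine div_le_div_of_nonneg_right (Finset.sum_le_sum fun B _ => ?_)
    (EE_pos (fun τ => Real.exp_pos _) σ).le
  exact mul_le_mul_of_nonneg_left (h _) (Real.exp_pos _).le

theorem gg_const (u : I → ℝ) (Λ : Finset S) (c : ℝ) (σ : S → Bool) :
    gg Y u Λ (fun _ => c) σ = c := by
  rw [← int_PV]
  simp

theorem MM_anti [DecidableEq I] {Λ Λ' : Finset S} (h : Λ' ⊆ Λ) (u : I → ℝ) (f : C(S → Bool, ℝ)) :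
    MM Y u Λ f ≤ MM Y u Λ' f := by
  refine ciSup_le fun σ => ?_
  rw [← gg_gg Y h u f σ, ← gg_const Y u Λ (MM Y u Λ' f) σ]
  exact gg_mono Y u Λ (fun τ => gg_le_MM Y u Λ' f τ) σ

omit [Countable S] in
theorem MM_congr {u v : I → ℝ} {Λ : Finset S} (h : ∀ i ∈ Y.T Λ, u i = v i)
    (f : C(S → Bool, ℝ)) : MM Y u Λ f = MM Y v Λ f := by
  unfold MM
  congr 1
  funext σ
  exact gg_congr Y h f σ

theorem MM_lip (u : I → ℝ) (Λ : Finset S) (f f' : C(S → Bool, ℝ)) :
    MM Y u Λ f ≤ MM Y u Λ f' + ‖f - f'‖ := by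
  refine ciSup_le fun σ => ?_
  have h1 := gg_sub Y u Λ f f' σ
  have h2 := abs_gg_le Y u Λ (f - f') σ
  have h3 := gg_le_MM Y u Λ f' σ
  have h4 := (abs_le.1 h2).2
  linarith

theorem MM_cont (Λ : Finset S) (f : C(S → Bool, ℝ)) : Continuous (fun u => MM Y u Λ f) := by
  have h1 : Continuous (fun p : (I → ℝ) × (S → Bool) => gg Y p.1 Λ f p.2) :=
    continuous_gg Y Λ f.continuous
  have h2 := IsCompact.continuous_sSup (f := fun (u : I → ℝ) (σ : S → Bool) => gg Y u Λ f σ)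
    (K := univ) isCompact_univ h1
  have : (fun u => MM Y u Λ f) = fun u => sSup ((fun σ => gg Y u Λ f σ) '' univ) := by
    funext u
    rw [image_univ]
    rfl
  rw [this]
  exact h2

/-- an exhaustion by finite sets -/
structure Exh (S : Type) where
  E : ℕ → Finset S
  mono : Monotone E
  ex : ∀ x, ∃ n, x ∈ E n

omit [DecidableEq S] [Countable S] in
theorem Exh.sub (X : Exh S) (Λ : Finset S) : ∃ n, ∀ m, n ≤ m → Λ ⊆ X.E m := by
  classical
  choose k hk using X.ex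
  refine ⟨Λ.sup k, fun m hm x hx => ?_⟩
  exact X.mono ((Finset.le_sup hx).trans hm) (hk x)

variable (X : Exh S)

/-- limit of the maxima: the maximum over the Gibbs states -/
noncomputable def Mi (u : I → ℝ) (f : C(S → Bool, ℝ)) : ℝ := ⨅ n, MM Y u (X.E n) f

theorem bdd_MM (u : I → ℝ) (f : C(S → Bool, ℝ)) :
    BddBelow (range fun n => MM Y u (X.E n) f) := ⟨-‖f‖, by
  rintro _ ⟨n, rfl⟩
  exact (abs_le.1 (abs_MM_le Y u (X.E n) f)).1⟩

theorem Mi_le (u : I → ℝ) (f : C(S → Bool, ℝ)) (n : ℕ) : Mi Y X u f ≤ MM Y u (X.E n) f :=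
  ciInf_le (bdd_MM Y X u f) n

theorem Mi_lim [DecidableEq I] (u : I → ℝ) (f : C(S → Bool, ℝ)) :
    Tendsto (fun n => MM Y u (X.E n) f) atTop (𝓝 (Mi Y X u f)) :=
  tendsto_atTop_ciInf (fun _ _ h => MM_anti Y (X.mono h) u f) (bdd_MM Y X u f)

theorem Mi_meas [DecidableEq I] [Countable I] (f : C(S → Bool, ℝ)) :
    Measurable (fun u => Mi Y X u f) :=
  measurable_of_tendsto_metrizable (fun n => (MM_cont Y (X.E n) f).measurable)
    (tendsto_pi_nhds.2 fun u => Mi_lim Y X u f)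

theorem Mi_lip [DecidableEq I] (u : I → ℝ) (f f' : C(S → Bool, ℝ)) :
    |Mi Y X u f - Mi Y X u f'| ≤ ‖f - f'‖ := by
  rw [abs_le]
  have h1 : Mi Y X u f ≤ Mi Y X u f' + ‖f - f'‖ :=
    le_of_tendsto_of_tendsto' (Mi_lim Y X u f) ((Mi_lim Y X u f').add_const _)
      fun n => MM_lip Y u (X.E n) f f'
  have h2 : Mi Y X u f' ≤ Mi Y X u f + ‖f' - f‖ :=
    le_of_tendsto_of_tendsto' (Mi_lim Y X u f') ((Mi_lim Y X u f).add_const _)
      fun n => MM_lip Y u (X.E n) f' f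
  rw [norm_sub_rev] at h2
  constructor <;> linarith

/-- Gibbs states (DLR equations, tested with continuous functions) -/
def IsG (u : I → ℝ) (π : Measure (S → Bool)) : Prop :=
  IsProbabilityMeasure π ∧ ∀ (Λ : Finset S) (f : (S → Bool) → ℝ), Continuous f →
    ∫ σ, gg Y u Λ f σ ∂π = ∫ σ, f σ ∂π

variable {Y}

theorem IsG.le_MM {u : I → ℝ} {π : Measure (S → Bool)} (h : IsG Y u π) (Λ : Finset S)
    (f : C(S → Bool, ℝ)) : ∫ σ, f σ ∂π ≤ MM Y u Λ f := by
  have := h.1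
  rw [← h.2 Λ f f.continuous]
  have h1 : ∫ σ, gg Y u Λ f σ ∂π ≤ ∫ _, MM Y u Λ f ∂π :=
    integral_mono (integrable_cont (continuous_gg' Y u Λ f.continuous)) (integrable_const _)
      fun σ => gg_le_MM Y u Λ f σ
  simpa using h1

theorem IsG.le_Mi {u : I → ℝ} {π : Measure (S → Bool)} (h : IsG Y u π)
    (f : C(S → Bool, ℝ)) : ∫ σ, f σ ∂π ≤ Mi Y X u f :=
  le_ciInf fun n => h.le_MM (X.E n) f

variable (Y)

/-- the maximum is attained by a Gibbs state -/
theorem exists_max [DecidableEq I] (u : I → ℝ) (f : C(S → Bool, ℝ)) :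
    ∃ π : Measure (S → Bool), IsG Y u π ∧ ∫ σ, f σ ∂π = Mi Y X u f := by
  choose s hs using fun n => MM_attained Y u (X.E n) f
  let P : ℕ → ProbabilityMeasure (S → Bool) := fun n => ⟨PV Y u (X.E n) (s n), inferInstance⟩
  let U : Ultrafilter ℕ := Ultrafilter.of atTop
  have hU : (U : Filter ℕ) ≤ atTop := Ultrafilter.of_le _
  obtain ⟨π, -, hπ⟩ := (isCompact_univ (X := ProbabilityMeasure (S → Bool))).ultrafilter_le_nhds
    (U.map P) (by simp)
  have hlim : Tendsto P U (𝓝 π) := hπ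
  have hconv : ∀ φ : (S → Bool) → ℝ, Continuous φ →
      Tendsto (fun n => gg Y u (X.E n) φ (s n)) U (𝓝 (∫ ω, φ ω ∂(π : Measure (S → Bool)))) := by
    intro φ hφ
    let F : BoundedContinuousFunction (S → Bool) ℝ := BoundedContinuousFunction.mkOfCompact ⟨φ, hφ⟩
    have h1 := (ProbabilityMeasure.tendsto_iff_forall_integral_tendsto.mp hlim) F
    refine h1.congr fun n => ?_
    exact int_PV Y u (X.E n) φ (s n)
  refine ⟨π, ⟨inferInstance, fun Λ φ hφ => ?_⟩, ?_⟩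
  · have h1 := hconv φ hφ
    have h2 := hconv (gg Y u Λ φ) (continuous_gg' Y u Λ hφ)
    refine tendsto_nhds_unique h2 (h1.congr' ?_)
    obtain ⟨n0, hn0⟩ := X.sub Λ
    have h3 : ∀ᶠ n in (U : Filter ℕ), n0 ≤ n := hU (eventually_ge_atTop n0)
    filter_upwards [h3] with n hn
    exact (gg_gg Y (hn0 n hn) u φ (s n)).symm
  · refine tendsto_nhds_unique (hconv f f.continuous) ?_
    have h4 : Tendsto (fun n => MM Y u (X.E n) f) U (𝓝 (Mi Y X u f)) := (Mi_lim Y X u f).mono_left hU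
    exact h4.congr fun n => (hs n).symm

/-! ### Tilting -/

omit [DecidableEq S] [Countable S] in
theorem exp_bounds {P : Measure (S → Bool)} [IsProbabilityMeasure P] {h : (S → Bool) → ℝ}
    {b : ℝ} (hi : Integrable (fun σ => Real.exp (h σ)) P) (hb : ∀ σ, |h σ| ≤ b) :
    Real.exp (-b) ≤ ∫ σ, Real.exp (h σ) ∂P ∧ ∫ σ, Real.exp (h σ) ∂P ≤ Real.exp b := by
  constructor
  · have : ∫ _, Real.exp (-b) ∂P ≤ ∫ σ, Real.exp (h σ) ∂P :=
      integral_mono (integrable_const _) hi fun σ => Real.exp_le_exp.2 (abs_le.1 (hb σ)).1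
    simpa using this
  · have : ∫ σ, Real.exp (h σ) ∂P ≤ ∫ _, Real.exp b ∂P :=
      integral_mono hi (integrable_const _) fun σ => Real.exp_le_exp.2 (abs_le.1 (hb σ)).2
    simpa using this

omit [DecidableEq S] in
theorem tilt_est {P : Measure (S → Bool)} [IsProbabilityMeasure P] {h : (S → Bool) → ℝ}
    (hc : Continuous h) {b : ℝ} (hb : ∀ σ, |h σ| ≤ b) (f : C(S → Bool, ℝ)) :
    |∫ σ, Real.exp (h σ) * f σ ∂P - (∫ σ, Real.exp (h σ) ∂P) * ∫ σ, f σ ∂P| ≤
      (∫ σ, Real.exp (h σ) ∂P) * ((Real.exp (2 * b) - 1) * ‖f‖) := by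
  have hce : Continuous (fun σ => Real.exp (h σ)) := Real.continuous_exp.comp hc
  obtain ⟨h1, h2⟩ := exp_bounds (P := P) (integrable_cont hce) hb
  set Z : ℝ := ∫ σ, Real.exp (h σ) ∂P with hZ
  have e1 : ∫ σ, Real.exp (h σ) * f σ ∂P - Z * ∫ σ, f σ ∂P =
      ∫ σ, (Real.exp (h σ) - Z) * f σ ∂P := by
    rw [← integral_const_mul, ← integral_sub]
    · exact integral_congr_ae (ae_of_all _ fun σ => by ring)
    · exact integrable_cont (hce.mul f.continuous)
    · exact (integrable_cont f.continuous).const_mul _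
  rw [e1]
  have e2 : ∀ σ, |Real.exp (h σ) - Z| ≤ Real.exp b - Real.exp (-b) := by
    intro σ
    have h3 := Real.exp_le_exp.2 (abs_le.1 (hb σ)).1
    have h4 := Real.exp_le_exp.2 (abs_le.1 (hb σ)).2
    rw [abs_le]
    constructor <;> linarith
  have hbd : ∀ σ, ‖(Real.exp (h σ) - Z) * f σ‖ ≤ (Real.exp b - Real.exp (-b)) * ‖f‖ := by
    intro σ
    rw [norm_mul]
    exact mul_le_mul (e2 σ) (f.norm_coe_le_norm σ) (norm_nonneg _)
      ((abs_nonneg _).trans (e2 σ))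
  have e3 := norm_integral_le_of_norm_le_const (μ := P) (ae_of_all _ hbd)
  simp only [Real.norm_eq_abs, probReal_univ, mul_one] at e3
  refine e3.trans ?_
  have hb0 : 0 ≤ b := (abs_nonneg _).trans (hb fun _ => true)
  have e4 : Real.exp b - Real.exp (-b) = Real.exp (-b) * (Real.exp (2 * b) - 1) := by
    rw [mul_sub, ← Real.exp_add, mul_one]
    congr 2
    ring
  rw [e4, mul_assoc]
  have e5 : 0 ≤ Real.exp (2 * b) - 1 := by
    have := Real.one_le_exp (show 0 ≤ 2 * b by positivity)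
    linarith
  exact mul_le_mul_of_nonneg_right h1 (mul_nonneg e5 (norm_nonneg _))

theorem abs_hh_le (t : I → ℝ) (Q : Finset I) (σ : S → Bool) :
    |hh Y t Q σ| ≤ ∑ i ∈ Q, |t i| := by
  unfold hh
  refine (Finset.abs_sum_le_sum_abs _ _).trans (Finset.sum_le_sum fun i _ => ?_)
  rw [abs_mul]
  exact mul_le_of_le_one_right (abs_nonneg _) (Y.le i σ)

theorem continuous_hh (t : I → ℝ) (Q : Finset I) : Continuous (hh Y t Q) := by
  unfold hh
  exact continuous_finsetSum _ fun i _ => continuous_const.mul (Y.cont i)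

variable [DecidableEq I]

/-- finite-volume averages depend continuously on finitely many parameters -/
theorem gg_diff {u v : I → ℝ} {Q : Finset I} (huv : ∀ i, i ∉ Q → v i = u i) {b : ℝ}
    (hb : ∑ i ∈ Q, |v i - u i| ≤ b) (Λ : Finset S) (f : C(S → Bool, ℝ)) (σ : S → Bool) :
    |gg Y v Λ f σ - gg Y u Λ f σ| ≤ (Real.exp (2 * b) - 1) * ‖f‖ := by
  have h1 := gg_tilt Y huv Λ f σ
  have h2 := tilt_est (P := PV Y u Λ σ) (continuous_hh Y (fun i => v i - u i) Q)
    (fun τ => (abs_hh_le Y _ Q τ).trans hb) f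
  rw [int_PV, int_PV, int_PV, ← h1] at h2
  set Z : ℝ := gg Y u Λ (fun τ => Real.exp (hh Y (fun i => v i - u i) Q τ)) σ with hZ
  have hZ0 : 0 < Z := by
    rw [hZ, ← int_PV]
    exact (Real.exp_pos _).trans_le (exp_bounds (P := PV Y u Λ σ)
      (integrable_cont (Real.continuous_exp.comp (continuous_hh Y (fun i => v i - u i) Q)))
      (fun τ => (abs_hh_le Y _ Q τ).trans hb)).1
  have h3 : gg Y v Λ f σ * Z - Z * gg Y u Λ f σ = Z * (gg Y v Λ f σ - gg Y u Λ f σ) := by ring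
  rw [h3, abs_mul, abs_of_pos hZ0] at h2
  exact le_of_mul_le_mul_left h2 hZ0

theorem MM_diff {u v : I → ℝ} {Q : Finset I} (huv : ∀ i, i ∉ Q → v i = u i) {b : ℝ}
    (hb : ∑ i ∈ Q, |v i - u i| ≤ b) (Λ : Finset S) (f : C(S → Bool, ℝ)) :
    MM Y v Λ f ≤ MM Y u Λ f + (Real.exp (2 * b) - 1) * ‖f‖ := by
  refine ciSup_le fun σ => ?_
  have h1 := (abs_le.1 (gg_diff Y huv hb Λ f σ)).2
  have h2 := gg_le_MM Y u Λ f σ
  linarith

theorem Mi_diff {u v : I → ℝ} {Q : Finset I} (huv : ∀ i, i ∉ Q → v i = u i) {b : ℝ}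
    (hb : ∑ i ∈ Q, |v i - u i| ≤ b) (f : C(S → Bool, ℝ)) :
    Mi Y X v f ≤ Mi Y X u f + (Real.exp (2 * b) - 1) * ‖f‖ :=
  le_of_tendsto_of_tendsto' (Mi_lim Y X v f) ((Mi_lim Y X u f).add_const _)
    fun n => MM_diff Y huv hb (X.E n) f

variable {Y}

/-- tilting a Gibbs state -/
theorem IsG.tilt {u v : I → ℝ} {Q : Finset I} (huv : ∀ i, i ∉ Q → v i = u i)
    {π : Measure (S → Bool)} (h : IsG Y u π) :
    IsG Y v (π.tilted (hh Y (fun i => v i - u i) Q)) ∧
      0 < ∫ σ, Real.exp (hh Y (fun i => v i - u i) Q σ) ∂π ∧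
      ∀ f : (S → Bool) → ℝ, ∫ σ, f σ ∂(π.tilted (hh Y (fun i => v i - u i) Q)) =
        (∫ σ, Real.exp (hh Y (fun i => v i - u i) Q σ) * f σ ∂π) /
          ∫ σ, Real.exp (hh Y (fun i => v i - u i) Q σ) ∂π := by
  have := h.1
  set t : I → ℝ := fun i => v i - u i with ht
  have hce : Continuous (fun σ => Real.exp (hh Y t Q σ)) :=
    Real.continuous_exp.comp (continuous_hh Y t Q)
  have hint := integrable_cont (P := π) hce
  have hform : ∀ f : (S → Bool) → ℝ, ∫ σ, f σ ∂(π.tilted (hh Y t Q)) =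
        (∫ σ, Real.exp (hh Y t Q σ) * f σ ∂π) / ∫ σ, Real.exp (hh Y t Q σ) ∂π := by
    intro f
    rw [integral_tilted, ← integral_div]
    exact integral_congr_ae (ae_of_all _ fun σ => by simp only [smul_eq_mul]; ring)
  refine ⟨⟨isProbabilityMeasure_tilted hint, fun Λ f hf => ?_⟩, integral_exp_pos hint, hform⟩
  rw [hform, hform]
  congr 1
  have hgv : Continuous (gg Y v Λ f) := continuous_gg' Y v Λ hf
  rw [← h.2 Λ (fun σ => Real.exp (hh Y t Q σ) * gg Y v Λ f σ) (hce.mul hgv),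
    ← h.2 Λ (fun σ => Real.exp (hh Y t Q σ) * f σ) (hce.mul hf)]
  refine integral_congr_ae (ae_of_all _ fun σ => ?_)
  have e1 : (fun τ => Real.exp (hh Y t Q τ) * gg Y v Λ f τ) =
      fun τ => gg Y v Λ f τ * Real.exp (hh Y t Q τ) := by funext τ; ring
  show gg Y u Λ (fun τ => Real.exp (hh Y t Q τ) * gg Y v Λ f τ) σ = _
  rw [e1, gg_mul Y (gg_inv Y v Λ f)]
  exact gg_tilt Y huv Λ f σ

/-- **The patch lemma.** Rewriting parameters away from `Λ` moves the maximum over the Gibbs states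
by at most a multiple of `MM Λ - Mi`. -/
theorem patch {u v : I → ℝ} {Q : Finset I} (huv : ∀ i, i ∉ Q → v i = u i) {b : ℝ}
    (hb : ∑ i ∈ Q, |v i - u i| ≤ b) {n : ℕ} (hQ : ∀ i ∈ Q, i ∉ Y.T (X.E n))
    (f : C(S → Bool, ℝ)) {ε : ℝ} (hε : MM Y u (X.E n) f ≤ Mi Y X u f + ε) :
    |Mi Y X v f - Mi Y X u f| ≤ Real.exp (2 * b) * ε := by
  have hb0 : 0 ≤ b := (Finset.sum_nonneg fun i _ => abs_nonneg _).trans hb
  have hε0 : 0 ≤ ε := by
    have := Mi_le Y X u f n
    linarith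
  have hexp1 : 1 ≤ Real.exp (2 * b) := Real.one_le_exp (by positivity)
  have hup : Mi Y X v f ≤ Mi Y X u f + ε := by
    refine (Mi_le Y X v f n).trans ?_
    rw [MM_congr Y (u := v) (v := u) (fun i hi => huv i fun h => hQ i h hi)]
    exact hε
  obtain ⟨π, hπ, hmax⟩ := exists_max Y X u f
  have := hπ.1
  obtain ⟨hG, hZ0, hform⟩ := hπ.tilt huv
  have h1 := hG.le_Mi X f
  rw [hform] at h1
  set t : I → ℝ := fun i => v i - u i with ht
  have hce : Continuous (fun σ => Real.exp (hh Y t Q σ)) :=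
    Real.continuous_exp.comp (continuous_hh Y t Q)
  set Z : ℝ := ∫ σ, Real.exp (hh Y t Q σ) ∂π with hZ
  have hbd : ∀ σ, |hh Y t Q σ| ≤ b := fun σ => (abs_hh_le Y t Q σ).trans hb
  have hZb := exp_bounds (P := π) (integrable_cont hce) hbd
  -- lower bound of the tilted integral
  have e1 : ∫ σ, Real.exp (hh Y t Q σ) * f σ ∂π =
      ∫ σ, Real.exp (hh Y t Q σ) * gg Y u (X.E n) f σ ∂π := by
    rw [← hπ.2 (X.E n) (fun σ => Real.exp (hh Y t Q σ) * f σ) (hce.mul f.continuous)]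
    exact integral_congr_ae (ae_of_all _ fun σ => gg_mul Y (exp_inv (hh_inv Y t hQ)) u f σ)
  set M : ℝ := MM Y u (X.E n) f with hM
  have hgc : Continuous (gg Y u (X.E n) f) := continuous_gg' Y u (X.E n) f.continuous
  have e2 : ∫ σ, Real.exp (hh Y t Q σ) * (M - gg Y u (X.E n) f σ) ∂π ≤
      ∫ σ, Real.exp b * (M - gg Y u (X.E n) f σ) ∂π := by
    refine integral_mono (integrable_cont (hce.mul (continuous_const.sub hgc)))
      ((integrable_cont (continuous_const.sub hgc)).const_mul _) fun σ => ?_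
    exact mul_le_mul_of_nonneg_right (Real.exp_le_exp.2 (abs_le.1 (hbd σ)).2)
      (sub_nonneg.2 (gg_le_MM Y u (X.E n) f σ))
  have e3 : ∫ σ, Real.exp b * (M - gg Y u (X.E n) f σ) ∂π = Real.exp b * (M - Mi Y X u f) := by
    rw [integral_const_mul, integral_sub (integrable_const _) (integrable_cont hgc),
      hπ.2 (X.E n) f f.continuous, hmax]
    simp
  have e4 : ∫ σ, Real.exp (hh Y t Q σ) * (M - gg Y u (X.E n) f σ) ∂π =
      M * Z - ∫ σ, Real.exp (hh Y t Q σ) * gg Y u (X.E n) f σ ∂π := by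
    have i1 : Integrable (fun σ => M * Real.exp (hh Y t Q σ)) π := (integrable_cont hce).const_mul _
    have i2 : Integrable (fun σ => Real.exp (hh Y t Q σ) * gg Y u (X.E n) f σ) π :=
      integrable_cont (hce.mul hgc)
    rw [hZ, ← integral_const_mul, ← integral_sub i1 i2]
    exact integral_congr_ae (ae_of_all _ fun σ => by ring)
  rw [e4, e3] at e2
  rw [e1] at h1
  have e5 : Real.exp b * (M - Mi Y X u f) ≤ Z * (Real.exp (2 * b) * ε) := by
    have h2 : M - Mi Y X u f ≤ ε := by linarith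
    calc Real.exp b * (M - Mi Y X u f) ≤ Real.exp b * ε :=
          mul_le_mul_of_nonneg_left h2 (Real.exp_pos _).le
      _ = Real.exp (-b) * (Real.exp (2 * b) * ε) := by
          rw [← mul_assoc, ← Real.exp_add]
          congr 2
          ring
      _ ≤ Z * (Real.exp (2 * b) * ε) :=
          mul_le_mul_of_nonneg_right hZb.1 (by positivity)
  have e6 : M - Real.exp (2 * b) * ε ≤
      (∫ σ, Real.exp (hh Y t Q σ) * gg Y u (X.E n) f σ ∂π) / Z := by
    rw [le_div_iff₀ hZ0]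
    nlinarith
  have e7 : Mi Y X u f ≤ M := Mi_le Y X u f n
  rw [abs_le]
  constructor
  · linarith
  · have : ε ≤ Real.exp (2 * b) * ε := le_mul_of_one_le_left hε0 hexp1
    linarith

end Pool.Agent.X187.EA
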