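import Pool.Agent.X187.EA.Gibbs

set_option autoImplicit false

/-! DLR equations for sets and for continuous functions. -/

open MeasureTheory Filter Topology Set
open scoped ENNReal

namespace Pool.Agent.X187.EA

variable {S I : Type} [DecidableEq S] [Countable S] (Y : Sys S I)

/-- normalised weights -/
noncomputable def ww (u : I → ℝ) (Λ : Finset S) (B : Finset S) (ω : S → Bool) : ℝ :=
  Real.exp (HH Y u Λ (fl B ω)) / EE Λ (fun τ => Real.exp (HH Y u Λ τ)) ω

omit [Countable S] in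
theorem continuous_HH (u : I → ℝ) (Λ : Finset S) : Continuous (HH Y u Λ) := by
  unfold HH
  exact continuous_finsetSum _ fun i _ => continuous_const.mul (Y.cont i)

omit [Countable S] in
theorem EE_exp_pos (u : I → ℝ) (Λ : Finset S) (ω : S → Bool) :
    0 < EE Λ (fun τ => Real.exp (HH Y u Λ τ)) ω := EE_pos (fun τ => Real.exp_pos _) ω

omit [Countable S] in
theorem continuous_ww (u : I → ℝ) (Λ : Finset S) (B : Finset S) : Continuous (ww Y u Λ B) := by
  have hE : Continuous (EE Λ (fun τ => Real.exp (HH Y u Λ τ))) := by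
    unfold EE
    exact continuous_finsetSum _ fun B _ => Real.continuous_exp.comp
      ((continuous_HH Y u Λ).comp (continuous_fl B))
  exact (Real.continuous_exp.comp ((continuous_HH Y u Λ).comp (continuous_fl B))).div hE
    fun ω => (EE_exp_pos Y u Λ ω).ne'

omit [Countable S] in
theorem ww_nonneg (u : I → ℝ) (Λ : Finset S) (B : Finset S) (ω : S → Bool) : 0 ≤ ww Y u Λ B ω :=
  div_nonneg (Real.exp_pos _).le (EE_exp_pos Y u Λ ω).le

omit [Countable S] in
theorem ww_sum (u : I → ℝ) (Λ : Finset S) (ω : S → Bool) : ∑ B ∈ Λ.powerset, ww Y u Λ B ω = 1 := by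
  unfold ww
  rw [← Finset.sum_div]
  exact div_self (EE_exp_pos Y u Λ ω).ne'

omit [Countable S] in
theorem ww_le_one (u : I → ℝ) (Λ : Finset S) {B : Finset S} (hB : B ∈ Λ.powerset)
    (ω : S → Bool) : ww Y u Λ B ω ≤ 1 := by
  rw [← ww_sum Y u Λ ω]
  exact Finset.single_le_sum (fun B _ => ww_nonneg Y u Λ B ω) hB

omit [Countable S] in
theorem gg_eq (u : I → ℝ) (Λ : Finset S) (f : (S → Bool) → ℝ) (ω : S → Bool) :
    gg Y u Λ f ω = ∑ B ∈ Λ.powerset, ww Y u Λ B ω * f (fl B ω) := by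
  unfold gg ww
  have e : EE Λ (fun τ => Real.exp (HH Y u Λ τ) * f τ) ω =
    ∑ B ∈ Λ.powerset, Real.exp (HH Y u Λ (fl B ω)) * f (fl B ω) := rfl
  rw [e, Finset.sum_div]
  exact Finset.sum_congr rfl fun B _ => by ring

/-- the Gibbs kernel applied to a measure -/
noncomputable def KK (u : I → ℝ) (Λ : Finset S) (π : Measure (S → Bool)) : Measure (S → Bool) :=
  ∑ B ∈ Λ.powerset, (π.withDensity fun ω => ENNReal.ofReal (ww Y u Λ B ω)).map (fl B)

theorem fin_wd (u : I → ℝ) (Λ : Finset S) (π : Measure (S → Bool)) [IsProbabilityMeasure π]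
    {B : Finset S} (hB : B ∈ Λ.powerset) :
    IsFiniteMeasure (π.withDensity fun ω => ENNReal.ofReal (ww Y u Λ B ω)) := by
  apply isFiniteMeasure_withDensity
  have : ∫⁻ ω, ENNReal.ofReal (ww Y u Λ B ω) ∂π ≤ ∫⁻ _, 1 ∂π := by
    apply lintegral_mono
    intro ω
    calc ENNReal.ofReal (ww Y u Λ B ω) ≤ ENNReal.ofReal 1 :=
          ENNReal.ofReal_le_ofReal (ww_le_one Y u Λ hB ω)
      _ = 1 := ENNReal.ofReal_one
  refine ne_top_of_le_ne_top ?_ this
  simp

theorem integral_KK (u : I → ℝ) (Λ : Finset S) (π : Measure (S → Bool)) [IsProbabilityMeasure π]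
    (f : (S → Bool) → ℝ) (hf : Measurable f) (C : ℝ) (hC : ∀ x, |f x| ≤ C) :
    ∫ ω, f ω ∂(KK Y u Λ π) = ∫ ω, gg Y u Λ f ω ∂π := by
  have hg : ∀ B : Finset S, Measurable (fl (S := S) B) := fun B => (continuous_fl B).measurable
  have hw : ∀ B, Measurable (fun ω => ENNReal.ofReal (ww Y u Λ B ω)) :=
    fun B => (continuous_ww Y u Λ B).measurable.ennreal_ofReal
  have hint : ∀ B ∈ Λ.powerset,
      Integrable f ((π.withDensity fun ω => ENNReal.ofReal (ww Y u Λ B ω)).map (fl B)) := by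
    intro B hB
    have := fin_wd Y u Λ π hB
    have h2 : IsFiniteMeasure
        ((π.withDensity fun ω => ENNReal.ofReal (ww Y u Λ B ω)).map (fl B)) :=
      Measure.isFiniteMeasure_map _ _
    exact Integrable.of_bound hf.aestronglyMeasurable C (ae_of_all _ hC)
  unfold KK
  rw [integral_finsetSum_measure hint]
  have h1 : ∀ B ∈ Λ.powerset,
      ∫ ω, f ω ∂((π.withDensity fun ω => ENNReal.ofReal (ww Y u Λ B ω)).map (fl B)) =
        ∫ ω, ww Y u Λ B ω * f (fl B ω) ∂π := by
    intro B _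
    rw [integral_map (hg B).aemeasurable hf.aestronglyMeasurable,
      integral_withDensity_eq_integral_toReal_smul (hw B)
        (ae_of_all _ fun ω => ENNReal.ofReal_lt_top)]
    refine integral_congr_ae (ae_of_all _ fun ω => ?_)
    simp only [smul_eq_mul]
    rw [ENNReal.toReal_ofReal (ww_nonneg Y u Λ B ω)]
  rw [Finset.sum_congr rfl h1, ← integral_finsetSum]
  · exact integral_congr_ae (ae_of_all _ fun ω => (gg_eq Y u Λ f ω).symm)
  · intro B hB
    refine Integrable.of_bound ?_ C (ae_of_all _ fun ω => ?_)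
    · exact ((continuous_ww Y u Λ B).measurable.mul (hf.comp (hg B))).aestronglyMeasurable
    · rw [Real.norm_eq_abs, abs_mul, abs_of_nonneg (ww_nonneg Y u Λ B ω)]
      calc ww Y u Λ B ω * |f (fl B ω)| ≤ 1 * |f (fl B ω)| :=
            mul_le_mul_of_nonneg_right (ww_le_one Y u Λ hB ω) (abs_nonneg _)
        _ ≤ C := by rw [one_mul]; exact hC _

theorem finite_KK (u : I → ℝ) (Λ : Finset S) (π : Measure (S → Bool)) [IsProbabilityMeasure π] :
    IsFiniteMeasure (KK Y u Λ π) := by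
  constructor
  unfold KK
  rw [Measure.finsetSum_apply]
  refine ENNReal.sum_lt_top.2 fun B hB => ?_
  have := fin_wd Y u Λ π hB
  rw [Measure.map_apply (continuous_fl B).measurable MeasurableSet.univ]
  exact measure_lt_top _ _

omit [DecidableEq S] [Countable S] in
theorem abs_ind_le (A : Set (S → Bool)) (x : S → Bool) : |A.indicator (fun _ => (1 : ℝ)) x| ≤ 1 := by
  by_cases hx : x ∈ A
  · simp [hx]
  · simp [hx]

variable {Y}

theorem IsG.inv {u : I → ℝ} {π : Measure (S → Bool)} (h : IsG Y u π) (Λ : Finset S) :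
    KK Y u Λ π = π := by
  have := h.1
  have := finite_KK Y u Λ π
  have hm : TopologicalSpace.MetrizableSpace (S → Bool) :=
    TopologicalSpace.metrizableSpace_of_t3_secondCountable _
  let _ : MetricSpace (S → Bool) := TopologicalSpace.metrizableSpaceMetric _
  apply ext_of_forall_integral_eq_of_IsFiniteMeasure
  intro f
  rw [integral_KK Y u Λ π f f.continuous.measurable ‖f‖ fun x => f.norm_coe_le_norm x]
  exact h.2 Λ f f.continuous

theorem IsG.sets {u : I → ℝ} {π : Measure (S → Bool)} (h : IsG Y u π) (Λ : Finset S)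
    {A : Set (S → Bool)} (hA : MeasurableSet A) :
    (π A).toReal = ∫ ω, gg Y u Λ (A.indicator fun _ => (1 : ℝ)) ω ∂π := by
  have := h.1
  rw [← integral_KK Y u Λ π (A.indicator fun _ => (1 : ℝ)) (measurable_const.indicator hA) 1
    (abs_ind_le A), h.inv Λ, integral_indicator hA]
  simp [Measure.real]

theorem isG_of [DecidableEq I] {u : I → ℝ} {π : Measure (S → Bool)} (hp : IsProbabilityMeasure π)
    (Bx : Set (Finset S)) (hcof : ∀ Λ : Finset S, ∃ Λ' ∈ Bx, Λ ⊆ Λ')
    (h : ∀ Λ ∈ Bx, ∀ A : Set (S → Bool), MeasurableSet A →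
      (π A).toReal = ∫ ω, gg Y u Λ (A.indicator fun _ => (1 : ℝ)) ω ∂π) : IsG Y u π := by
  have h1 : ∀ Λ ∈ Bx, KK Y u Λ π = π := by
    intro Λ hΛ
    have := finite_KK Y u Λ π
    apply Measure.ext
    intro A hA
    rw [← ENNReal.toReal_eq_toReal_iff' (measure_ne_top _ _) (measure_ne_top _ _), h Λ hΛ A hA,
      ← integral_KK Y u Λ π (A.indicator fun _ => (1 : ℝ)) (measurable_const.indicator hA) 1
      (abs_ind_le A), integral_indicator hA]
    simp [Measure.real]
  have h2 : ∀ Λ ∈ Bx, ∀ f : (S → Bool) → ℝ, Continuous f →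
      ∫ σ, gg Y u Λ f σ ∂π = ∫ σ, f σ ∂π := by
    intro Λ hΛ f hf
    obtain ⟨C, hC⟩ :=
      (isCompact_univ (X := S → Bool)).exists_bound_of_continuousOn hf.continuousOn
    rw [← integral_KK Y u Λ π f hf.measurable C fun x => hC x (mem_univ x), h1 Λ hΛ]
  refine ⟨hp, fun Λ f hf => ?_⟩
  obtain ⟨Λ', hΛ', hsub⟩ := hcof Λ
  rw [← h2 Λ' hΛ' (gg Y u Λ f) (continuous_gg' Y u Λ hf), ← h2 Λ' hΛ' f hf]
  exact integral_congr_ae (ae_of_all _ fun σ => gg_gg Y hsub u f σ)

end Pool.Agent.X187.EA
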