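import Pool.Agent.X187.EA.Dim

set_option autoImplicit false

/-! Sparse modifications: the recursion and the main theorem. -/

open MeasureTheory Filter Topology Set
open scoped ENNReal

namespace Pool.Agent.X187.EA

variable {S I G Ω : Type} [DecidableEq S] [Countable S] [DecidableEq I] [Countable I]
  [MeasurableSpace Ω] (Y : Sys S I) (X : Exh S)

/-- overwrite `u` on `L` by `s` -/
def ovr (L : Finset I) (s u : I → ℝ) : I → ℝ := fun i => if i ∈ L then s i else u i

omit [Countable I] in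
theorem ovr_meas (L : Finset I) (s : I → ℝ) : Measurable (ovr L s) := by
  apply measurable_pi_lambda
  intro i
  unfold ovr
  by_cases h : i ∈ L
  · simp only [h, if_true]
    exact measurable_const
  · simp only [h, if_false]
    exact measurable_pi_apply i

/-- bad event: some modification on `L` has not converged at scale `n` -/
def Bad (u : Ω → I → ℝ) (L : Finset I) (a : ℝ) (fs : Finset C(S → Bool, ℝ)) (n : ℕ) (δ : ℝ) :
    Set Ω :=
  {ω | ∃ s : I → ℝ, (∀ i ∈ L, |s i| ≤ a) ∧ ∃ f ∈ fs,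
    Mi Y X (ovr L s (u ω)) f + δ < MM Y (ovr L s (u ω)) (X.E n) f}

theorem net (L : Finset I) (a : ℝ) {η : ℝ} (hη : 0 < η) :
    ∃ N : Finset (I → ℝ), ∀ s : I → ℝ, (∀ i ∈ L, |s i| ≤ a) → ∃ s' ∈ N, ∀ i ∈ L,
      |s i - s' i| ≤ η := by
  classical
  have hK : IsCompact (Set.pi univ fun _ : L => Icc (-a) a) :=
    isCompact_univ_pi fun _ => isCompact_Icc
  obtain ⟨t, -, htf, hcov⟩ := hK.finite_cover_balls hη
  refine ⟨htf.toFinset.image fun g i => if h : i ∈ L then g ⟨i, h⟩ else 0, fun s hs => ?_⟩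
  have h1 : (fun i : L => s i) ∈ Set.pi univ fun _ : L => Icc (-a) a :=
    fun i _ => abs_le.1 (hs i i.2)
  have h2 := hcov h1
  simp only [mem_iUnion] at h2
  obtain ⟨g, hg, hgs⟩ := h2
  refine ⟨_, Finset.mem_image_of_mem _ (htf.mem_toFinset.2 hg), fun i hi => ?_⟩
  simp only [hi, dif_pos]
  have h3 := (dist_le_pi_dist (fun i : L => s i) g ⟨i, hi⟩).trans (Metric.mem_ball.1 hgs).le
  rwa [Real.dist_eq] at h3

theorem exists_eta (c : ℝ) (fs : Finset C(S → Bool, ℝ)) {δ : ℝ} (hδ : 0 < δ) :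
    ∃ η : ℝ, 0 < η ∧ ∀ f ∈ fs, (Real.exp (2 * (c * η)) - 1) * ‖f‖ ≤ δ := by
  have h1 : ∀ f ∈ fs, ∀ᶠ t : ℝ in 𝓝 0, (Real.exp (2 * (c * t)) - 1) * ‖f‖ < δ := by
    intro f _
    have hc : Continuous fun t : ℝ => (Real.exp (2 * (c * t)) - 1) * ‖f‖ := by fun_prop
    have := hc.tendsto 0
    simp only [mul_zero, Real.exp_zero, sub_self, zero_mul] at this
    exact this.eventually (gt_mem_nhds hδ)
  have h2 := (Finset.eventually_all fs).2 h1
  have h3 : ∀ᶠ t : ℝ in 𝓝[>] 0, 0 < t ∧ ∀ f ∈ fs, (Real.exp (2 * (c * t)) - 1) * ‖f‖ < δ :=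
    (eventually_mem_nhdsWithin).and (h2.filter_mono nhdsWithin_le_nhds)
  obtain ⟨t, ht, h⟩ := h3.exists
  exact ⟨t, ht, fun f hf => (h f hf).le⟩

variable {P : Measure Ω} [IsProbabilityMeasure P] {u : Ω → I → ℝ}

theorem bad_small (hu : Measurable u) (L : Finset I) (a : ℝ) (fs : Finset C(S → Bool, ℝ))
    {δ : ℝ} (hδ : 0 < δ) {ε : ℝ≥0∞} (hε : 0 < ε) :
    ∀ᶠ n in atTop, P (Bad Y X u L a fs n δ) ≤ ε := by
  obtain ⟨η, hη, hfs⟩ := exists_eta (L.card : ℝ) fs (show 0 < δ / 3 by positivity)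
  obtain ⟨N, hN⟩ := net L a hη
  set A : (I → ℝ) → C(S → Bool, ℝ) → ℕ → Set Ω := fun s f n =>
    {ω | Mi Y X (ovr L s (u ω)) f + δ / 3 < MM Y (ovr L s (u ω)) (X.E n) f} with hA
  have hAm : ∀ s f n, MeasurableSet (A s f n) := fun s f n =>
    measurableSet_lt (((Mi_meas Y X f).comp ((ovr_meas L s).comp hu)).add_const _)
      ((MM_cont Y (X.E n) f).measurable.comp ((ovr_meas L s).comp hu))
  have hlim : ∀ s f, Tendsto (fun n => P (A s f n)) atTop (𝓝 0) := by
    intro s f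
    have h1 := tendsto_measure_iInter_atTop (μ := P) (s := A s f)
      (fun n => (hAm s f n).nullMeasurableSet)
      (fun n m hnm ω hω => lt_of_lt_of_le (show _ < _ from hω)
        (MM_anti Y (X.mono hnm) _ f)) ⟨0, measure_ne_top _ _⟩
    have h2 : (⋂ n, A s f n) = ∅ := by
      rw [eq_empty_iff_forall_notMem]
      intro ω hω
      rw [mem_iInter] at hω
      have h3 : Mi Y X (ovr L s (u ω)) f + δ / 3 ≤ Mi Y X (ovr L s (u ω)) f :=
        ge_of_tendsto' (Mi_lim Y X (ovr L s (u ω)) f) fun n => (show _ < _ from hω n).le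
      linarith
    rwa [h2, measure_empty] at h1
  have hsum : Tendsto (fun n => ∑ s ∈ N, ∑ f ∈ fs, P (A s f n)) atTop
      (𝓝 (∑ _s ∈ N, ∑ _f ∈ fs, 0)) :=
    tendsto_finsetSum _ fun s _ => tendsto_finsetSum _ fun f _ => hlim s f
  simp only [Finset.sum_const_zero] at hsum
  filter_upwards [ENNReal.tendsto_nhds_zero.1 hsum ε hε] with n hn
  refine le_trans ?_ hn
  have hsub : Bad Y X u L a fs n δ ⊆ ⋃ s ∈ N, ⋃ f ∈ fs, A s f n := by
    rintro ω ⟨s, hs, f, hf, hlt⟩
    obtain ⟨s', hs', hclose⟩ := hN s hs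
    simp only [mem_iUnion]
    refine ⟨s', hs', f, hf, ?_⟩
    show Mi Y X (ovr L s' (u ω)) f + δ / 3 < MM Y (ovr L s' (u ω)) (X.E n) f
    have hoff : ∀ i, i ∉ L → ovr L s (u ω) i = ovr L s' (u ω) i := fun i hi => by
      simp [ovr, hi]
    have hoff' : ∀ i, i ∉ L → ovr L s' (u ω) i = ovr L s (u ω) i := fun i hi => (hoff i hi).symm
    have hb : ∑ i ∈ L, |ovr L s (u ω) i - ovr L s' (u ω) i| ≤ L.card * η := by
      rw [← nsmul_eq_mul]
      refine Finset.sum_le_card_nsmul _ _ _ fun i hi => ?_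
      simp only [ovr, hi, if_true]
      exact hclose i hi
    have hb' : ∑ i ∈ L, |ovr L s' (u ω) i - ovr L s (u ω) i| ≤ L.card * η := by
      refine le_trans (le_of_eq ?_) hb
      exact Finset.sum_congr rfl fun i _ => abs_sub_comm _ _
    have h1 := MM_diff Y hoff hb (X.E n) f
    have h2 := Mi_diff Y X hoff' hb' f
    have h3 := hfs f hf
    linarith
  calc P (Bad Y X u L a fs n δ) ≤ P (⋃ s ∈ N, ⋃ f ∈ fs, A s f n) := measure_mono hsub
    _ ≤ ∑ s ∈ N, P (⋃ f ∈ fs, A s f n) := measure_biUnion_finset_le _ _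
    _ ≤ ∑ s ∈ N, ∑ f ∈ fs, P (A s f n) :=
        Finset.sum_le_sum fun s _ => measure_biUnion_finset_le _ _

/-- indices modified after choosing the positions in the list (last chosen first) -/
def LL (Pk : ℕ → G → Finset I) : List G → Finset I
  | [] => ∅
  | z :: l => LL Pk l ∪ Pk l.length z

/-- the list of the first `k` members, last first -/
def hist (z : ℕ → G) : ℕ → List G
  | 0 => []
  | k + 1 => z k :: hist z k

omit [MeasurableSpace Ω] in
theorem hist_length (z : ℕ → G) (k : ℕ) : (hist z k).length = k := by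
  induction k with
  | zero => rfl
  | succ k ih => rw [hist, List.length_cons, ih]

theorem exists_rule (hu : Measurable u) (Pk : ℕ → G → Finset I)
    (hesc : ∀ (k : ℕ) (Λ : Finset S), {z | ∃ i ∈ Pk k z, i ∈ Y.T Λ}.Finite)
    (a : ℕ → ℝ) (fs : ℕ → Finset C(S → Bool, ℝ)) (δ : ℕ → ℝ) (hδ : ∀ k, 0 < δ k) :
    ∃ R : List G → Finset G, ∀ z : ℕ → G, (∀ k, z k ∉ R (hist z k)) →
      ∃ n : ℕ → ℕ, Monotone n ∧ (∀ k, ∀ i ∈ Pk k (z k), i ∉ Y.T (X.E (n k))) ∧
        ∀ᵐ ω ∂P, ∀ᶠ k in atTop, ω ∉ Bad Y X u (LL Pk (hist z k)) (a k) (fs k) (n k) (δ k) := by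
  have hhalf : ∀ k : ℕ, (0 : ℝ≥0∞) < (2 : ℝ≥0∞)⁻¹ ^ k := fun k =>
    ENNReal.pow_pos (ENNReal.inv_pos.2 (by norm_num)) k
  have hch : ∀ (L : Finset I) (m k : ℕ), ∃ n : ℕ, m ≤ n ∧
      P (Bad Y X u L (a k) (fs k) n (δ k)) ≤ (2 : ℝ≥0∞)⁻¹ ^ k := by
    intro L m k
    obtain ⟨n, h1, h2⟩ := ((eventually_ge_atTop m).and
      (bad_small (P := P) Y X hu L (a k) (fs k) (hδ k) (hhalf k))).exists
    exact ⟨n, h1, h2⟩
  choose c hc1 hc2 using hch
  set N : List G → ℕ := fun l => List.rec (c ∅ 0 0)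
    (fun z l n => c (LL Pk (z :: l)) n (l.length + 1)) l with hN
  have hN1 : ∀ z l, N (z :: l) = c (LL Pk (z :: l)) (N l) (l.length + 1) := fun z l => rfl
  have hNbad : ∀ l, P (Bad Y X u (LL Pk l) (a l.length) (fs l.length) (N l) (δ l.length)) ≤
      (2 : ℝ≥0∞)⁻¹ ^ l.length := by
    intro l
    cases l with
    | nil => exact hc2 ∅ 0 0
    | cons z l => exact hc2 (LL Pk (z :: l)) (N l) (l.length + 1)
  refine ⟨fun l => (hesc l.length (X.E (N l))).toFinset, fun z hz => ⟨fun k => N (hist z k),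
    monotone_nat_of_le_succ fun k => ?_, fun k i hi hi2 => ?_, ?_⟩⟩
  · show N (hist z k) ≤ N (z k :: hist z k)
    rw [hN1]
    exact hc1 _ _ _
  · have h1 := hz k
    rw [Set.Finite.mem_toFinset, hist_length] at h1
    exact h1 ⟨i, hi, hi2⟩
  · have hgeo : ∑' k : ℕ, (2 : ℝ≥0∞)⁻¹ ^ k ≠ ∞ := by
      rw [ENNReal.tsum_geometric]
      simp
    apply ae_eventually_notMem
    refine ne_top_of_le_ne_top hgeo (ENNReal.tsum_le_tsum fun k => ?_)
    have h1 := hNbad (hist z k)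
    rw [hist_length] at h1
    exact h1

/-! ### Deterministic part -/

variable {Y X}

/-- a vector modified on the patches only, with controlled size -/
structure Mod (Pk : ℕ → G → Finset I) (z : ℕ → G) (a : ℕ → ℝ) (K : ℕ) (U v : I → ℝ) : Prop where
  off : ∀ i, (∀ k, i ∉ Pk k (z k)) → v i = U i
  bd : ∀ k, K ≤ k → ∀ i ∈ LL Pk (hist z (k + 1)), |v i| ≤ a k

omit [Countable I] in
theorem LL_mono (Pk : ℕ → G → Finset I) (z : ℕ → G) {k m : ℕ} (h : k ≤ m) :
    LL Pk (hist z k) ⊆ LL Pk (hist z m) := by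
  induction m, h using Nat.le_induction with
  | base => exact Finset.Subset.refl _
  | succ m _ ih => exact ih.trans Finset.subset_union_left

omit [Countable I] in
theorem patch_LL (Pk : ℕ → G → Finset I) (z : ℕ → G) (k : ℕ) :
    Pk k (z k) ⊆ LL Pk (hist z (k + 1)) := by
  intro i hi
  show i ∈ LL Pk (hist z k) ∪ Pk (hist z k).length (z k)
  rw [hist_length]
  exact Finset.mem_union_right _ hi

omit [Countable I] in
theorem succ_LL (Pk : ℕ → G → Finset I) (z : ℕ → G) (k : ℕ) :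
    LL Pk (hist z (k + 1)) = LL Pk (hist z k) ∪ Pk k (z k) := by
  show LL Pk (hist z k) ∪ Pk (hist z k).length (z k) = _
  rw [hist_length]

theorem closeness {Pk : ℕ → G → Finset I} {z : ℕ → G} {a : ℕ → ℝ} {c : ℕ → ℕ}
    (hcard : ∀ k w, (Pk k w).card ≤ c k) (ha : ∀ k : ℕ, (k : ℝ) ≤ a k) {n : ℕ → ℕ} (hn : Monotone n)
    (havoid : ∀ k, ∀ i ∈ Pk k (z k), i ∉ Y.T (X.E (n k))) {fs : ℕ → Finset C(S → Bool, ℝ)}
    (hfs : Monotone fs) {K : ℕ} {U : I → ℝ} (hU : ∀ i, |U i| ≤ K)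
    (hbad : ∀ k, K ≤ k → ∀ s : I → ℝ, (∀ i ∈ LL Pk (hist z k), |s i| ≤ a k) → ∀ f ∈ fs k,
      MM Y (ovr (LL Pk (hist z k)) s U) (X.E (n k)) f ≤
        Mi Y X (ovr (LL Pk (hist z k)) s U) f +
          (1 / 2) ^ k * Real.exp (-(2 * (c k * (2 * a k + k)))))
    {v : I → ℝ} (hv : Mod Pk z a K U v) {k : ℕ} (hk : K ≤ k) {f : C(S → Bool, ℝ)}
    (hf : f ∈ fs k) :
    |Mi Y X v f - Mi Y X (ovr (LL Pk (hist z k)) v U) f| ≤ 2 * (1 / 2) ^ k := by
  set w : ℕ → I → ℝ := fun k => ovr (LL Pk (hist z k)) v U with hw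
  have ha0 : ∀ k, 0 ≤ a k := fun k => (Nat.cast_nonneg k).trans (ha k)
  -- not bad
  have hnb : ∀ m, k ≤ m → MM Y (w m) (X.E (n m)) f ≤ Mi Y X (w m) f +
      (1 / 2) ^ m * Real.exp (-(2 * (c m * (2 * a m + m)))) := by
    intro m hm
    refine hbad m (hk.trans hm) v (fun i hi => ?_) f (hfs hm hf)
    exact hv.bd m (hk.trans hm) i (LL_mono Pk z (Nat.le_succ m) hi)
  have hwb : ∀ m, K ≤ m → ∀ i, |w m i| ≤ a m + m := by
    intro m hm i
    show |ovr (LL Pk (hist z m)) v U i| ≤ _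
    unfold ovr
    split_ifs with h
    · have := hv.bd m hm i (LL_mono Pk z (Nat.le_succ m) h)
      have h2 : (0 : ℝ) ≤ m := Nat.cast_nonneg m
      linarith
    · have h1 := hU i
      have h2 : (K : ℝ) ≤ m := by exact_mod_cast hm
      have := ha0 m
      linarith
  -- one step
  have hstep : ∀ m, k ≤ m → |Mi Y X (w (m + 1)) f - Mi Y X (w m) f| ≤ (1 / 2) ^ m := by
    intro m hm
    have hoff : ∀ i, i ∉ Pk m (z m) → w (m + 1) i = w m i := by
      intro i hi
      show ovr (LL Pk (hist z (m + 1))) v U i = ovr (LL Pk (hist z m)) v U i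
      have e : (i ∈ LL Pk (hist z (m + 1))) ↔ (i ∈ LL Pk (hist z m)) := by
        rw [succ_LL, Finset.mem_union]
        simp [hi]
      unfold ovr
      simp only [e]
    have hb : ∑ i ∈ Pk m (z m), |w (m + 1) i - w m i| ≤ c m * (2 * a m + m) := by
      have h1 : ∀ i ∈ Pk m (z m), |w (m + 1) i - w m i| ≤ 2 * a m + m := by
        intro i hi
        have h2 : w (m + 1) i = v i := by
          show ovr (LL Pk (hist z (m + 1))) v U i = v i
          unfold ovr
          rw [if_pos (patch_LL Pk z m hi)]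
        have h3 := hwb m (hk.trans hm) i
        have h4 := hv.bd m (hk.trans hm) i (patch_LL Pk z m hi)
        rw [h2]
        have h5 := abs_sub (v i) (w m i)
        linarith
      have h6 := Finset.sum_le_card_nsmul _ _ _ h1
      rw [nsmul_eq_mul] at h6
      refine h6.trans (mul_le_mul_of_nonneg_right (by exact_mod_cast hcard m (z m)) ?_)
      have := ha0 m
      positivity
    have h7 := patch X hoff hb (havoid m) f (hnb m hm)
    refine h7.trans (le_of_eq ?_)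
    rw [mul_left_comm, ← Real.exp_add, add_neg_cancel, Real.exp_zero, mul_one]
  have htel : ∀ m, k ≤ m → |Mi Y X (w m) f - Mi Y X (w k) f| ≤
      2 * (1 / 2) ^ k - 2 * (1 / 2) ^ m := by
    intro m hm
    induction m, hm using Nat.le_induction with
    | base => simp
    | succ m hm ih =>
      have h1 := hstep m hm
      have h2 : Mi Y X (w (m + 1)) f - Mi Y X (w k) f =
        (Mi Y X (w (m + 1)) f - Mi Y X (w m) f) + (Mi Y X (w m) f - Mi Y X (w k) f) := by ring
      rw [h2]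
      refine (abs_add_le _ _).trans ?_
      rw [pow_succ]
      linarith
  rw [abs_le]
  constructor
  · -- lower bound
    have hlow : Mi Y X (w k) f - 2 * (1 / 2) ^ k ≤ Mi Y X v f := by
      refine le_ciInf fun p => ?_
      have hev : ∀ᶠ m in atTop, ∀ i ∈ Y.T (X.E p), w m i = v i := by
        rw [Finset.eventually_all]
        intro i _
        by_cases h : ∃ l, i ∈ Pk l (z l)
        · obtain ⟨l, hl⟩ := h
          filter_upwards [eventually_ge_atTop (l + 1)] with m hm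
          show ovr (LL Pk (hist z m)) v U i = v i
          unfold ovr
          rw [if_pos (LL_mono Pk z hm (patch_LL Pk z l hl))]
        · push Not at h
          refine Eventually.of_forall fun m => ?_
          show ovr (LL Pk (hist z m)) v U i = v i
          unfold ovr
          split_ifs
          · rfl
          · exact (hv.off i h).symm
      obtain ⟨m, hm1, hm2⟩ := (hev.and (eventually_ge_atTop k)).exists
      have h1 := (abs_le.1 (htel m hm2)).1
      have h2 := Mi_le Y X (w m) f p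
      rw [MM_congr Y hm1 f] at h2
      have h3 : (0 : ℝ) ≤ 2 * (1 / 2) ^ m := by positivity
      linarith
    linarith
  · have hup : Mi Y X v f ≤ Mi Y X (w k) f + (1 / 2) ^ k := by
      refine (Mi_le Y X v f (n k)).trans ?_
      have hcg : ∀ i ∈ Y.T (X.E (n k)), v i = w k i := by
        intro i hi
        show v i = ovr (LL Pk (hist z k)) v U i
        unfold ovr
        split_ifs with h
        · rfl
        · apply hv.off
          intro m hm
          rcases lt_or_ge m k with h1 | h1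
          · exact h (LL_mono Pk z h1 (patch_LL Pk z m hm))
          · apply havoid m i hm
            rw [Y.memT] at hi ⊢
            obtain ⟨x, hx1, hx2⟩ := hi
            exact ⟨x, hx1, X.mono (hn h1) hx2⟩
      rw [MM_congr Y hcg f]
      refine (hnb k le_rfl).trans ?_
      have h1 : Real.exp (-(2 * (c k * (2 * a k + k)))) ≤ 1 := by
        rw [Real.exp_le_one_iff]
        have := ha0 k
        have : (0 : ℝ) ≤ 2 * (c k * (2 * a k + k)) := by positivity
        linarith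
      have h2 : (1 / 2 : ℝ) ^ k * Real.exp (-(2 * (c k * (2 * a k + k)))) ≤ (1 / 2) ^ k * 1 :=
        mul_le_mul_of_nonneg_left h1 (by positivity)
      linarith
    have h0 : (0 : ℝ) < (1 / 2) ^ k := by positivity
    linarith

theorem dimension {Pk : ℕ → G → Finset I} {z : ℕ → G} {a : ℕ → ℝ} {c : ℕ → ℕ}
    (hcard : ∀ k w, (Pk k w).card ≤ c k) (ha : ∀ k : ℕ, (k : ℝ) ≤ a k) {n : ℕ → ℕ} (hn : Monotone n)
    (havoid : ∀ k, ∀ i ∈ Pk k (z k), i ∉ Y.T (X.E (n k))) {fs : ℕ → Finset C(S → Bool, ℝ)}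
    (hfs : Monotone fs) (hdense : ∀ K : Set C(S → Bool, ℝ), IsCompact K → ∃ J, ∀ f ∈ K,
      ∃ g ∈ fs J, ‖f - g‖ ≤ 1 / 8) {K : ℕ} {U : I → ℝ} (hU : ∀ i, |U i| ≤ K)
    (hbad : ∀ k, K ≤ k → ∀ s : I → ℝ, (∀ i ∈ LL Pk (hist z k), |s i| ≤ a k) → ∀ f ∈ fs k,
      MM Y (ovr (LL Pk (hist z k)) s U) (X.E (n k)) f ≤
        Mi Y X (ovr (LL Pk (hist z k)) s U) f +
          (1 / 2) ^ k * Real.exp (-(2 * (c k * (2 * a k + k)))))
    {v : I → ℝ} (hv : Mod Pk z a K U v) (m : ℕ) : HasN Y v m ↔ HasN Y U m := by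
  have hunif : ∀ F : Set C(S → Bool, ℝ), IsCompact F → ∃ k, K ≤ k ∧ ∀ v, Mod Pk z a K U v →
      ∀ f ∈ F, |Mi Y X v f - Mi Y X (ovr (LL Pk (hist z k)) v U) f| ≤ 1 / 2 := by
    intro F hF
    obtain ⟨J, hJ⟩ := hdense F hF
    refine ⟨max K (max J 3), le_max_left _ _, fun v hv f hf => ?_⟩
    obtain ⟨g, hg, hfg⟩ := hJ f hf
    have hgk : g ∈ fs (max K (max J 3)) :=
      hfs ((le_max_left J 3).trans (le_max_right K _)) hg
    have h1 := closeness hcard ha hn havoid hfs hU hbad hv (le_max_left K (max J 3)) hgk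
    have h2 := Mi_lip Y X v f g
    have h3 := Mi_lip Y X (ovr (LL Pk (hist z (max K (max J 3)))) v U) f g
    have h4 : (2 : ℝ) * (1 / 2) ^ (max K (max J 3)) ≤ 1 / 4 := by
      have : (1 / 2 : ℝ) ^ (max K (max J 3)) ≤ (1 / 2) ^ 3 :=
        pow_le_pow_of_le_one (by norm_num) (by norm_num)
          ((le_max_right J 3).trans (le_max_right K _))
      norm_num at this ⊢
      linarith
    rw [abs_le] at h1 h2 h3 ⊢
    constructor <;> linarith
  constructor
  · intro h
    obtain ⟨F, hF, htr⟩ := h.transfer X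
    obtain ⟨k, hk, hcl⟩ := hunif F hF
    have h1 : HasN Y (ovr (LL Pk (hist z k)) v U) m := htr _ fun f hf => by
      rw [abs_sub_comm]
      exact hcl v hv f hf
    refine h1.modify (Q := LL Pk (hist z k)) fun i hi => ?_
    simp [ovr, hi]
  · intro h
    obtain ⟨F, hF, htr⟩ := h.transfer X
    obtain ⟨k, hk, hcl⟩ := hunif F hF
    set v' : I → ℝ := ovr (LL Pk (hist z k)) U v with hv'
    have hmod : Mod Pk z a K U v' := by
      refine ⟨fun i hi => ?_, fun l hl i hi => ?_⟩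
      · show ovr (LL Pk (hist z k)) U v i = U i
        unfold ovr
        split_ifs
        · rfl
        · exact hv.off i hi
      · show |ovr (LL Pk (hist z k)) U v i| ≤ a l
        unfold ovr
        split_ifs
        · have h1 := hU i
          have h2 : (K : ℝ) ≤ l := by exact_mod_cast hl
          exact h1.trans (h2.trans (ha l))
        · exact hv.bd l hl i hi
    have hw : ovr (LL Pk (hist z k)) v' U = U := by
      funext i
      unfold ovr
      split_ifs with h1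
      · show ovr (LL Pk (hist z k)) U v i = U i
        simp [ovr, h1]
      · rfl
    have h1 : HasN Y v' m := htr v' fun f hf => by
      have := hcl v' hmod f hf
      rwa [hw] at this
    refine h1.modify (Q := LL Pk (hist z k)) fun i hi => ?_
    show v i = ovr (LL Pk (hist z k)) U v i
    simp [ovr, hi]

theorem exists_dense_fs : ∃ fs : ℕ → Finset C(S → Bool, ℝ), Monotone fs ∧
    ∀ K : Set C(S → Bool, ℝ), IsCompact K → ∃ J, ∀ f ∈ K, ∃ g ∈ fs J, ‖f - g‖ ≤ 1 / 8 := by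
  classical
  set D := TopologicalSpace.denseSeq C(S → Bool, ℝ) with hD
  refine ⟨fun k => (Finset.range k).image D, fun k m h => Finset.image_subset_image
    (Finset.range_mono h), fun K hK => ?_⟩
  have hcov : K ⊆ ⋃ j : ℕ, Metric.ball (D j) (1 / 8) := by
    intro f _
    obtain ⟨_, hj, ⟨j, rfl⟩⟩ := Metric.dense_iff.1 (TopologicalSpace.denseRange_denseSeq
      C(S → Bool, ℝ)) f (1 / 8) (by norm_num)
    rw [mem_iUnion]
    refine ⟨j, ?_⟩
    rw [Metric.mem_ball, dist_comm]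
    exact Metric.mem_ball.1 hj
  obtain ⟨t, ht⟩ := hK.elim_finite_subcover _ (fun j => Metric.isOpen_ball) hcov
  refine ⟨t.sup id + 1, fun f hf => ?_⟩
  have h1 := ht hf
  simp only [mem_iUnion] at h1
  obtain ⟨j, hj, hfj⟩ := h1
  refine ⟨D j, Finset.mem_image_of_mem _ (Finset.mem_range.2 (Nat.lt_succ_of_le
    (Finset.le_sup (f := id) hj))), ?_⟩
  rw [← dist_eq_norm]
  exact (Metric.mem_ball.1 hfj).le

variable (Y)

/-- **Main theorem (abstract form).** -/
theorem main (X : Exh S) (hu : Measurable u) (hbd : ∀ᵐ ω ∂P, ∃ B : ℝ, ∀ i, |u ω i| ≤ B)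
    (Pk : ℕ → G → Finset I) {c : ℕ → ℕ} (hcard : ∀ k w, (Pk k w).card ≤ c k)
    (hesc : ∀ (k : ℕ) (Λ : Finset S), {z | ∃ i ∈ Pk k z, i ∈ Y.T Λ}.Finite)
    (a : ℕ → ℝ) (ha : ∀ k : ℕ, (k : ℝ) ≤ a k) :
    ∃ R : List G → Finset G, ∀ z : ℕ → G, (∀ k, z k ∉ R (hist z k)) →
      ∀ᵐ ω ∂P, ∀ v : I → ℝ, (∃ K, Mod Pk z a K (u ω) v) → ∀ m,
        (HasN Y v m ↔ HasN Y (u ω) m) := by
  obtain ⟨fs, hfs, hdense⟩ := exists_dense_fs (S := S)
  obtain ⟨R, hR⟩ := exists_rule (P := P) Y X hu Pk hesc a fs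
    (fun k => (1 / 2) ^ k * Real.exp (-(2 * (c k * (2 * a k + k))))) (fun k => by positivity)
  refine ⟨R, fun z hz => ?_⟩
  obtain ⟨n, hn, havoid, hae⟩ := hR z hz
  filter_upwards [hbd, hae] with ω hB hω v hv m
  obtain ⟨B, hB⟩ := hB
  obtain ⟨K0, hK0⟩ := hv
  obtain ⟨K1, hK1⟩ := eventually_atTop.1 hω
  obtain ⟨K2, hK2⟩ := exists_nat_ge B
  have hmod : Mod Pk z a (max K0 (max K1 K2)) (u ω) v :=
    ⟨hK0.off, fun k hk i hi => hK0.bd k ((le_max_left _ _).trans hk) i hi⟩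
  have hU : ∀ i, |u ω i| ≤ ((max K0 (max K1 K2) : ℕ) : ℝ) := fun i =>
    (hB i).trans (hK2.trans (by exact_mod_cast (le_max_right K1 K2).trans (le_max_right K0 _)))
  refine dimension hcard ha hn havoid hfs hdense hU (fun k hk s hs f hf => ?_) hmod m
  by_contra hcon
  push Not at hcon
  exact hK1 k (((le_max_left K1 K2).trans (le_max_right K0 _)).trans hk) ⟨s, hs, f, hf, hcon⟩

end Pool.Agent.X187.EA
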