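import Pool.Agent.X187.EA.Ker
import Pool.Agent.X187.EA.Rec

set_option autoImplicit false

/-! The Edwards–Anderson system on `ℤ^d` with fields. -/

open MeasureTheory Filter Topology Set
open scoped ENNReal

namespace Pool.Agent.X187.EA

variable {d : ℕ}

/-- second end of an edge -/
def nd (e : (Fin d → ℤ) × Fin d) : Fin d → ℤ := e.1 + Pi.single e.2 1

/-- edges meeting `Λ` -/
def eds (Λ : Finset (Fin d → ℤ)) : Finset ((Fin d → ℤ) × Fin d) :=
  (Λ ×ˢ Finset.univ) ∪ (Λ ×ˢ Finset.univ).image fun p => (p.1 - Pi.single p.2 1, p.2)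

theorem mem_eds (Λ : Finset (Fin d → ℤ)) (e : (Fin d → ℤ) × Fin d) :
    e ∈ eds Λ ↔ e.1 ∈ Λ ∨ nd e ∈ Λ := by
  unfold eds nd
  rw [Finset.mem_union, Finset.mem_image, Finset.mem_product]
  constructor
  · rintro (h | ⟨p, hp, rfl⟩)
    · exact Or.inl h.1
    · right
      simpa using (Finset.mem_product.1 hp).1
  · rintro (h | h)
    · exact Or.inl ⟨h, Finset.mem_univ _⟩
    · right
      refine ⟨(e.1 + Pi.single e.2 1, e.2), Finset.mem_product.2 ⟨h, Finset.mem_univ _⟩, ?_⟩
      simp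

theorem card_eds (Λ : Finset (Fin d → ℤ)) : (eds Λ).card ≤ 2 * (Λ.card * d) := by
  unfold eds
  refine (Finset.card_union_le _ _).trans ?_
  have h1 : (Λ ×ˢ (Finset.univ : Finset (Fin d))).card = Λ.card * d := by simp
  have h2 := Finset.card_image_le (s := Λ ×ˢ (Finset.univ : Finset (Fin d)))
    (f := fun p => ((p.1 - Pi.single p.2 1 : Fin d → ℤ), p.2))
  omega

/-- signs -/
def sgn (b : Bool) : ℝ := if b then 1 else -1

theorem abs_sgn (b : Bool) : |sgn b| = 1 := by
  cases b <;> simp [sgn]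

theorem continuous_sgn : Continuous sgn := continuous_of_discreteTopology

/-- the system -/
def EAs (d : ℕ) : Sys (Fin d → ℤ) (((Fin d → ℤ) × Fin d) ⊕ (Fin d → ℤ)) where
  supp i := match i with
    | Sum.inl e => {e.1, nd e}
    | Sum.inr x => {x}
  chi i σ := match i with
    | Sum.inl e => sgn (σ e.1) * sgn (σ (nd e))
    | Sum.inr x => sgn (σ x)
  loc i σ σ' h := by
    rcases i with e | x
    · simp only
      rw [h e.1 (by simp), h (nd e) (by simp)]
    · simp only
      rw [h x (by simp)]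
  le i σ := by
    rcases i with e | x
    · simp only [abs_mul, abs_sgn]
      norm_num
    · simp only [abs_sgn]
      exact le_rfl
  cont i := by
    rcases i with e | x
    · exact (continuous_sgn.comp (continuous_apply (A := fun _ => Bool) e.1)).mul
        (continuous_sgn.comp (continuous_apply (A := fun _ => Bool) (nd e)))
    · exact continuous_sgn.comp (continuous_apply (A := fun _ => Bool) x)
  T Λ := (eds Λ).disjSum Λ
  memT i Λ := by
    rcases i with e | x
    · rw [Finset.inl_mem_disjSum, mem_eds]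
      simp
    · rw [Finset.inr_mem_disjSum]
      simp

/-- the environment with inverse temperature, couplings and fields -/
def env (β : ℝ) (J : (Fin d → ℤ) × Fin d → ℝ) (h : (Fin d → ℤ) → ℝ) :
    ((Fin d → ℤ) × Fin d) ⊕ (Fin d → ℤ) → ℝ :=
  fun i => β * Sum.elim J h i

/-- cubes exhaust the lattice -/
noncomputable def cubes (d : ℕ) : Exh (Fin d → ℤ) where
  E n := Finset.Icc (fun _ => -(n : ℤ)) (fun _ => (n : ℤ))
  mono n m h := by
    apply Finset.Icc_subset_Icc
    · intro i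
      have : (n : ℤ) ≤ m := by exact_mod_cast h
      show -(m : ℤ) ≤ -(n : ℤ)
      omega
    · intro i
      show (n : ℤ) ≤ (m : ℤ)
      exact_mod_cast h
  ex x := by
    refine ⟨Finset.univ.sup fun i => (x i).natAbs, ?_⟩
    rw [Finset.mem_Icc]
    have h : ∀ i, (x i).natAbs ≤ Finset.univ.sup fun i => (x i).natAbs := fun i =>
      Finset.le_sup (f := fun i => (x i).natAbs) (Finset.mem_univ i)
    constructor
    · intro i
      have := h i
      show -(((Finset.univ.sup fun i => (x i).natAbs : ℕ)) : ℤ) ≤ x i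
      omega
    · intro i
      have := h i
      show x i ≤ (((Finset.univ.sup fun i => (x i).natAbs : ℕ)) : ℤ)
      omega

/-- patches -/
def pat (F : ℕ → Finset (Fin d → ℤ)) (k : ℕ) (z : Fin d → ℤ) :
    Finset (((Fin d → ℤ) × Fin d) ⊕ (Fin d → ℤ)) :=
  (EAs d).T ((F k).image fun c => z + c)

theorem card_pat (F : ℕ → Finset (Fin d → ℤ)) (k : ℕ) (z : Fin d → ℤ) :
    (pat F k z).card ≤ 2 * ((F k).card * d) + (F k).card := by
  show ((eds _).disjSum _).card ≤ _
  rw [Finset.card_disjSum]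
  have h1 := card_eds ((F k).image fun c => z + c)
  have h2 := Finset.card_image_le (s := F k) (f := fun c => z + c)
  have h3 : ((F k).image fun c => z + c).card * d ≤ (F k).card * d := Nat.mul_le_mul_right _ h2
  omega

theorem esc_pat (F : ℕ → Finset (Fin d → ℤ)) (k : ℕ) (Λ : Finset (Fin d → ℤ)) :
    {z | ∃ i ∈ pat F k z, i ∈ (EAs d).T Λ}.Finite := by
  classical
  refine (Finset.finite_toSet (((EAs d).T Λ).biUnion fun i => ((EAs d).supp i).biUnion fun x =>
    (F k).image fun c => x - c)).subset ?_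
  rintro z ⟨i, hi, hi2⟩
  obtain ⟨x, hx, hxF⟩ := ((EAs d).memT i _).1 hi
  obtain ⟨c, hc, rfl⟩ := Finset.mem_image.1 hxF
  simp only [Finset.coe_biUnion, mem_iUnion]
  exact ⟨i, hi2, z + c, hx, Finset.mem_coe.2 (Finset.mem_image.2 ⟨c, hc, by simp⟩)⟩

theorem mem_LL {G I : Type} [DecidableEq I] (Pk : ℕ → G → Finset I) (z : ℕ → G) {k : ℕ} {i : I}
    (h : i ∈ LL Pk (hist z (k + 1))) : ∃ j ≤ k, i ∈ Pk j (z j) := by
  induction k with
  | zero =>
    rw [succ_LL] at h
    rcases Finset.mem_union.1 h with h | h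
    · exact absurd h (by simp [hist, LL])
    · exact ⟨0, le_rfl, h⟩
  | succ k ih =>
    rw [succ_LL] at h
    rcases Finset.mem_union.1 h with h | h
    · obtain ⟨j, hj, hi⟩ := ih h
      exact ⟨j, hj.trans (Nat.le_succ k), hi⟩
    · exact ⟨k + 1, le_rfl, h⟩

theorem hist_eq {G : Type} (z : ℕ → G) (k : ℕ) : hist z k = ((List.range k).map z).reverse := by
  induction k with
  | zero => rfl
  | succ k ih => rw [hist, ih, List.range_succ, List.map_append, List.reverse_append]; rfl

/-- **Main theorem for the lattice.** -/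
theorem lattice {Ω : Type} [MeasurableSpace Ω] (P : Measure Ω) [IsProbabilityMeasure P]
    {β : Ω → ℝ} (hβ : Measurable β) {J : Ω → (Fin d → ℤ) × Fin d → ℝ} (hJ : Measurable J)
    (hb : ∀ᵐ ω ∂P, ∃ B : ℝ, ∀ e, |J ω e| ≤ B) (F : ℕ → Finset (Fin d → ℤ)) (A : ℕ → ℝ) :
    ∃ R : List (Fin d → ℤ) → Finset (Fin d → ℤ), ∀ z : ℕ → (Fin d → ℤ),
      (∀ k, z k ∉ R ((List.range k).map z)) → ∀ᵐ ω ∂P,
        ∀ (J' : (Fin d → ℤ) × Fin d → ℝ) (h' : (Fin d → ℤ) → ℝ),
          (∀ e, (∀ k, e ∉ eds ((F k).image fun c => z k + c)) → J' e = J ω e) →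
          (∀ k, ∀ e ∈ eds ((F k).image fun c => z k + c), |J' e| ≤ A k) →
          (∀ x, (∀ k, x ∉ (F k).image fun c => z k + c) → h' x = 0) →
          (∀ k, ∀ x ∈ (F k).image fun c => z k + c, |h' x| ≤ A k) →
          ∀ m, HasN (EAs d) (env (β ω) J' h') m ↔ HasN (EAs d) (env (β ω) (J ω) fun _ => 0) m := by
  have hu : Measurable fun ω => env (β ω) (J ω) (fun _ => (0 : ℝ)) := by
    apply measurable_pi_lambda
    intro i
    rcases i with e | x
    · exact hβ.mul ((measurable_pi_apply e).comp hJ)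
    · exact hβ.mul measurable_const
  have hbd : ∀ᵐ ω ∂P, ∃ B : ℝ, ∀ i, |env (β ω) (J ω) (fun _ => (0 : ℝ)) i| ≤ B := by
    filter_upwards [hb] with ω hω
    obtain ⟨B, hB⟩ := hω
    have hB0 : |β ω| * |B| ≥ 0 := by positivity
    refine ⟨|β ω| * |B|, fun i => ?_⟩
    rcases i with e | x
    · show |β ω * J ω e| ≤ _
      rw [abs_mul]
      exact mul_le_mul_of_nonneg_left ((hB e).trans (le_abs_self B)) (abs_nonneg _)
    · show |β ω * 0| ≤ _
      rw [mul_zero, abs_zero]
      exact hB0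
  set a : ℕ → ℝ := fun k => k * (∑ j ∈ Finset.range (k + 1), |A j|) + k with ha
  have hS : ∀ k, 0 ≤ ∑ j ∈ Finset.range (k + 1), |A j| := fun k =>
    Finset.sum_nonneg fun _ _ => abs_nonneg _
  obtain ⟨R, hR⟩ := main (P := P) (EAs d) (cubes d) hu hbd (pat F) (card_pat F) (esc_pat F) a
    (fun k => by
      have h1 := hS k
      have h2 : (0 : ℝ) ≤ k * ∑ j ∈ Finset.range (k + 1), |A j| := by positivity
      show (k : ℝ) ≤ k * (∑ j ∈ Finset.range (k + 1), |A j|) + k
      linarith)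
  refine ⟨fun l => R l.reverse, fun z hz => ?_⟩
  have hz' : ∀ k, z k ∉ R (hist z k) := fun k => by rw [hist_eq]; exact hz k
  filter_upwards [hR z hz'] with ω hω J' h' h1 h2 h3 h4 m
  obtain ⟨K, hK⟩ := exists_nat_ge |β ω|
  refine hω (env (β ω) J' h') ⟨K, fun i hi => ?_, fun k hk i hi => ?_⟩ m
  · rcases i with e | x
    · show β ω * J' e = β ω * J ω e
      rw [h1 e fun k hk => hi k (Finset.inl_mem_disjSum.2 hk)]
    · show β ω * h' x = β ω * 0
      rw [h3 x fun k hk => hi k (Finset.inr_mem_disjSum.2 hk)]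
  · obtain ⟨j, hj, hij⟩ := mem_LL (pat F) z hi
    have hAj : |A j| ≤ ∑ j ∈ Finset.range (k + 1), |A j| :=
      Finset.single_le_sum (f := fun j => |A j|) (fun _ _ => abs_nonneg _)
        (Finset.mem_range.2 (Nat.lt_succ_of_le hj))
    have hβk : |β ω| ≤ k := hK.trans (by exact_mod_cast hk)
    have key : ∀ t : ℝ, |t| ≤ A j → |β ω * t| ≤ a k := by
      intro t ht
      rw [abs_mul]
      have h5 : |t| ≤ ∑ j ∈ Finset.range (k + 1), |A j| := (ht.trans (le_abs_self _)).trans hAj
      have h6 : |β ω| * |t| ≤ k * ∑ j ∈ Finset.range (k + 1), |A j| :=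
        mul_le_mul hβk h5 (abs_nonneg _) (Nat.cast_nonneg k)
      have h7 : (0 : ℝ) ≤ k := Nat.cast_nonneg k
      show _ ≤ k * (∑ j ∈ Finset.range (k + 1), |A j|) + k
      linarith
    rcases i with e | x
    · exact key _ (h2 j e (Finset.inl_mem_disjSum.1 hij))
    · exact key _ (h4 j x (Finset.inr_mem_disjSum.1 hij))

end Pool.Agent.X187.EA
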