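import Pool.Agent.X187.EA.Rec

set_option autoImplicit false

/-! Modifications which are sparse at a deterministic scale. -/

open MeasureTheory Filter Topology Set
open scoped ENNReal

namespace Pool.Agent.X187.EA

variable {S I Ω : Type} [DecidableEq S] [Countable S] [DecidableEq I] [Countable I]
  [MeasurableSpace Ω] (Y : Sys S I) (X : Exh S)

/-- indices which meet the `n`-th box -/
def TT (n : ℕ) : Finset I := Y.T (X.E n)

omit [Countable S] [DecidableEq S] [DecidableEq I] [Countable I] in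
theorem TT_mono {n m : ℕ} (h : n ≤ m) : TT Y X n ⊆ TT Y X m := by
  intro i hi
  unfold TT at hi ⊢
  rw [Y.memT] at hi ⊢
  obtain ⟨x, h1, h2⟩ := hi
  exact ⟨x, h1, X.mono h h2⟩

variable {P : Measure Ω} [IsProbabilityMeasure P] {u : Ω → I → ℝ}

theorem exists_rho (hu : Measurable u) (fs : ℕ → Finset C(S → Bool, ℝ)) :
    ∃ ρ : ℕ → ℕ → ℕ, (∀ n b, b ≤ ρ n b) ∧ ∀ᵐ ω ∂P, ∃ N : ℕ, ∀ n, N ≤ n → ∀ b : ℕ,
      ω ∉ Bad Y X u (TT Y X n) (2 * n) (fs n) (ρ n b) ((1 / 2) ^ n * Real.exp (-(2 * b))) := by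
  have hhalf : ∀ k : ℕ, (0 : ℝ≥0∞) < (2 : ℝ≥0∞)⁻¹ ^ k := fun k =>
    ENNReal.pow_pos (ENNReal.inv_pos.2 (by norm_num)) k
  have hch : ∀ (n b : ℕ), ∃ m : ℕ, b ≤ m ∧
      P (Bad Y X u (TT Y X n) (2 * n) (fs n) m ((1 / 2) ^ n * Real.exp (-(2 * b)))) ≤
        (2 : ℝ≥0∞)⁻¹ ^ n * (2 : ℝ≥0∞)⁻¹ ^ b := by
    intro n b
    obtain ⟨m, h1, h2⟩ := ((eventually_ge_atTop b).and
      (bad_small (P := P) Y X hu (TT Y X n) (2 * n) (fs n)
        (δ := (1 / 2) ^ n * Real.exp (-(2 * b))) (by positivity)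
        (ENNReal.mul_pos (hhalf n).ne' (hhalf b).ne'))).exists
    exact ⟨m, h1, h2⟩
  choose ρ hρ1 hρ2 using hch
  refine ⟨ρ, hρ1, ?_⟩
  have hsum : ∑' q : ℕ × ℕ, P (Bad Y X u (TT Y X q.1) (2 * q.1) (fs q.1) (ρ q.1 q.2)
      ((1 / 2) ^ q.1 * Real.exp (-(2 * q.2)))) ≠ ∞ := by
    refine ne_top_of_le_ne_top ?_ (ENNReal.tsum_le_tsum fun q => hρ2 q.1 q.2)
    rw [ENNReal.tsum_prod']
    simp only [ENNReal.tsum_mul_left, ENNReal.tsum_mul_right]
    rw [ENNReal.tsum_geometric]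
    simp only [ENNReal.one_sub_inv_two, inv_inv]
    exact ENNReal.mul_ne_top (by norm_num) (by norm_num)
  filter_upwards [ae_finite_setOfPred_mem hsum] with ω hω
  obtain ⟨N, hN⟩ := (hω.image Prod.fst).bddAbove
  refine ⟨N + 1, fun n hn b hb => ?_⟩
  have : n ≤ N := hN ⟨(n, b), hb, rfl⟩
  omega

variable {Y X}

/-- sparse modification, with controlled size -/
structure Md (ρ : ℕ → ℕ → ℕ) (n b : ℕ → ℕ) (Y : Sys S I) (X : Exh S) (K : ℕ) (U v : I → ℝ) :
    Prop where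
  off : ∀ k, K ≤ k → ∀ i ∈ TT Y X (ρ (n k) (b k)), i ∉ TT Y X (n k) → v i = U i
  l1 : ∀ k, K ≤ k → ∑ i ∈ TT Y X (n (k + 1)) \ TT Y X (n k), |v i - U i| ≤ b k
  bd : ∀ k, K ≤ k → ∀ i ∈ TT Y X (n k), |v i| ≤ 2 * n k

theorem closeness2 {ρ : ℕ → ℕ → ℕ} {n b : ℕ → ℕ} (hn : StrictMono n)
    {fs : ℕ → Finset C(S → Bool, ℝ)} (hfs : Monotone fs) {K : ℕ} {U : I → ℝ}
    (hbad : ∀ m, K ≤ m → ∀ (b : ℕ) (s : I → ℝ), (∀ i ∈ TT Y X m, |s i| ≤ 2 * m) → ∀ f ∈ fs m,
      MM Y (ovr (TT Y X m) s U) (X.E (ρ m b)) f ≤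
        Mi Y X (ovr (TT Y X m) s U) f + (1 / 2) ^ m * Real.exp (-(2 * b)))
    {v : I → ℝ} (hv : Md ρ n b Y X K U v) {k : ℕ} (hk : K ≤ k) {f : C(S → Bool, ℝ)}
    (hf : f ∈ fs k) :
    |Mi Y X v f - Mi Y X (ovr (TT Y X (n k)) v U) f| ≤ 2 * (1 / 2) ^ k := by
  set w : ℕ → I → ℝ := fun k => ovr (TT Y X (n k)) v U with hw
  have hnk : ∀ m, m ≤ n m := hn.id_le
  have hnb : ∀ m, k ≤ m → MM Y (w m) (X.E (ρ (n m) (b m))) f ≤ Mi Y X (w m) f +
      (1 / 2) ^ (n m) * Real.exp (-(2 * b m)) := by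
    intro m hm
    exact hbad (n m) (hk.trans (hm.trans (hnk m))) (b m) v
      (fun i hi => hv.bd m (hk.trans hm) i hi) f (hfs (hm.trans (hnk m)) hf)
  have hpw : ∀ m, (1 / 2 : ℝ) ^ (n m) ≤ (1 / 2) ^ m := fun m =>
    pow_le_pow_of_le_one (by norm_num) (by norm_num) (hnk m)
  -- one step
  have hstep : ∀ m, k ≤ m → |Mi Y X (w (m + 1)) f - Mi Y X (w m) f| ≤ (1 / 2) ^ m := by
    intro m hm
    set Q : Finset I := (TT Y X (n (m + 1)) \ TT Y X (n m)) \ TT Y X (ρ (n m) (b m)) with hQ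
    have hoff : ∀ i, i ∉ Q → w (m + 1) i = w m i := by
      intro i hi
      show ovr (TT Y X (n (m + 1))) v U i = ovr (TT Y X (n m)) v U i
      unfold ovr
      by_cases h1 : i ∈ TT Y X (n m)
      · rw [if_pos h1, if_pos (TT_mono Y X (hn.monotone (Nat.le_succ m)) h1)]
      · rw [if_neg h1]
        split_ifs with h2
        · apply hv.off m (hk.trans hm) i _ h1
          by_contra h3
          exact hi (Finset.mem_sdiff.2 ⟨Finset.mem_sdiff.2 ⟨h2, h1⟩, h3⟩)
        · rfl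
    have hb : ∑ i ∈ Q, |w (m + 1) i - w m i| ≤ b m := by
      refine le_trans ?_ (hv.l1 m (hk.trans hm))
      refine le_trans (le_of_eq ?_) (Finset.sum_le_sum_of_subset_of_nonneg
        (Finset.sdiff_subset : Q ⊆ _) fun i _ _ => abs_nonneg _)
      refine Finset.sum_congr rfl fun i hi => ?_
      have h1 := (Finset.mem_sdiff.1 hi).1
      have h2 := Finset.mem_sdiff.1 h1
      show |ovr (TT Y X (n (m + 1))) v U i - ovr (TT Y X (n m)) v U i| = _
      unfold ovr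
      rw [if_pos h2.1, if_neg h2.2]
    have havoid : ∀ i ∈ Q, i ∉ Y.T (X.E (ρ (n m) (b m))) := fun i hi => (Finset.mem_sdiff.1 hi).2
    have h7 := patch X hoff hb havoid f (hnb m hm)
    refine h7.trans (le_trans (le_of_eq ?_) (hpw m))
    rw [mul_left_comm, ← Real.exp_add, add_neg_cancel, Real.exp_zero, mul_one]
  have htel : ∀ m, k ≤ m → |Mi Y X (w m) f - Mi Y X (w k) f| ≤
      2 * (1 / 2) ^ k - 2 * (1 / 2) ^ m := by
    intro m hm
    induction m, hm using Nat.le_induction with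
    | base => simp
    | succ m hm ih =>
      have h1 := hstep m hm
      have h2 : Mi Y X (w (m + 1)) f - Mi Y X (w k) f =
        (Mi Y X (w (m + 1)) f - Mi Y X (w m) f) + (Mi Y X (w m) f - Mi Y X (w k) f) := by ring
      rw [h2]
      refine (abs_add_le _ _).trans ?_
      rw [pow_succ]
      linarith
  rw [abs_le]
  constructor
  · have hlow : Mi Y X (w k) f - 2 * (1 / 2) ^ k ≤ Mi Y X v f := by
      refine le_ciInf fun p => ?_
      set m : ℕ := max k p with hm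
      have hcg : ∀ i ∈ Y.T (X.E p), w m i = v i := by
        intro i hi
        show ovr (TT Y X (n m)) v U i = v i
        unfold ovr
        rw [if_pos (TT_mono Y X ((le_max_right k p).trans (hnk m)) hi)]
      have h1 := (abs_le.1 (htel m (le_max_left k p))).1
      have h2 := Mi_le Y X (w m) f p
      rw [MM_congr Y hcg f] at h2
      have h3 : (0 : ℝ) ≤ 2 * (1 / 2) ^ m := by positivity
      linarith
    linarith
  · have hup : Mi Y X v f ≤ Mi Y X (w k) f + (1 / 2) ^ k := by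
      refine (Mi_le Y X v f (ρ (n k) (b k))).trans ?_
      have hcg : ∀ i ∈ Y.T (X.E (ρ (n k) (b k))), v i = w k i := by
        intro i hi
        show v i = ovr (TT Y X (n k)) v U i
        unfold ovr
        split_ifs with h
        · rfl
        · exact hv.off k hk i hi h
      rw [MM_congr Y hcg f]
      refine (hnb k le_rfl).trans ?_
      have h1 : Real.exp (-(2 * (b k : ℝ))) ≤ 1 := by
        rw [Real.exp_le_one_iff]
        have : (0 : ℝ) ≤ 2 * b k := by positivity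
        linarith
      have h2 : (1 / 2 : ℝ) ^ (n k) * Real.exp (-(2 * b k)) ≤ (1 / 2) ^ (n k) * 1 :=
        mul_le_mul_of_nonneg_left h1 (by positivity)
      have h3 := hpw k
      linarith
    have h0 : (0 : ℝ) < (1 / 2) ^ k := by positivity
    linarith

theorem dimension2 {ρ : ℕ → ℕ → ℕ} {n b : ℕ → ℕ} (hn : StrictMono n)
    {fs : ℕ → Finset C(S → Bool, ℝ)}
    (hfs : Monotone fs) (hdense : ∀ K : Set C(S → Bool, ℝ), IsCompact K → ∃ J, ∀ f ∈ K,
      ∃ g ∈ fs J, ‖f - g‖ ≤ 1 / 8) {K : ℕ} {U : I → ℝ} (hU : ∀ i, |U i| ≤ K)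
    (hbad : ∀ m, K ≤ m → ∀ (b : ℕ) (s : I → ℝ), (∀ i ∈ TT Y X m, |s i| ≤ 2 * m) → ∀ f ∈ fs m,
      MM Y (ovr (TT Y X m) s U) (X.E (ρ m b)) f ≤
        Mi Y X (ovr (TT Y X m) s U) f + (1 / 2) ^ m * Real.exp (-(2 * b)))
    {v : I → ℝ} (hv : Md ρ n b Y X K U v) (m : ℕ) : HasN Y v m ↔ HasN Y U m := by
  have hunif : ∀ F : Set C(S → Bool, ℝ), IsCompact F → ∃ k, K ≤ k ∧ ∀ v, Md ρ n b Y X K U v →
      ∀ f ∈ F, |Mi Y X v f - Mi Y X (ovr (TT Y X (n k)) v U) f| ≤ 1 / 2 := by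
    intro F hF
    obtain ⟨J, hJ⟩ := hdense F hF
    refine ⟨max K (max J 3), le_max_left _ _, fun v hv f hf => ?_⟩
    obtain ⟨g, hg, hfg⟩ := hJ f hf
    have hgk : g ∈ fs (max K (max J 3)) :=
      hfs ((le_max_left J 3).trans (le_max_right K _)) hg
    have h1 := closeness2 hn hfs hbad hv (le_max_left K (max J 3)) hgk
    have h2 := Mi_lip Y X v f g
    have h3 := Mi_lip Y X (ovr (TT Y X (n (max K (max J 3)))) v U) f g
    have h4 : (2 : ℝ) * (1 / 2) ^ (max K (max J 3)) ≤ 1 / 4 := by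
      have : (1 / 2 : ℝ) ^ (max K (max J 3)) ≤ (1 / 2) ^ 3 :=
        pow_le_pow_of_le_one (by norm_num) (by norm_num)
          ((le_max_right J 3).trans (le_max_right K _))
      norm_num at this ⊢
      linarith
    rw [abs_le] at h1 h2 h3 ⊢
    constructor <;> linarith
  constructor
  · intro h
    obtain ⟨F, hF, htr⟩ := h.transfer X
    obtain ⟨k, hk, hcl⟩ := hunif F hF
    have h1 : HasN Y (ovr (TT Y X (n k)) v U) m := htr _ fun f hf => by
      rw [abs_sub_comm]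
      exact hcl v hv f hf
    refine h1.modify (Q := TT Y X (n k)) fun i hi => ?_
    simp [ovr, hi]
  · intro h
    obtain ⟨F, hF, htr⟩ := h.transfer X
    obtain ⟨k, hk, hcl⟩ := hunif F hF
    set v' : I → ℝ := ovr (TT Y X (n k)) U v with hv'
    have hmod : Md ρ n b Y X K U v' := by
      refine ⟨fun l hl i hi hi2 => ?_, fun l hl => ?_, fun l hl i hi => ?_⟩
      · show ovr (TT Y X (n k)) U v i = U i
        unfold ovr
        split_ifs
        · rfl
        · exact hv.off l hl i hi hi2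
      · refine le_trans (Finset.sum_le_sum fun i _ => ?_) (hv.l1 l hl)
        show |ovr (TT Y X (n k)) U v i - U i| ≤ _
        unfold ovr
        split_ifs
        · rw [sub_self, abs_zero]
          exact abs_nonneg _
        · exact le_rfl
      · show |ovr (TT Y X (n k)) U v i| ≤ 2 * n l
        unfold ovr
        split_ifs
        · have h1 := hU i
          have h2 : (K : ℝ) ≤ n l := by exact_mod_cast hl.trans (hn.id_le l)
          have h3 : (0 : ℝ) ≤ n l := Nat.cast_nonneg _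
          linarith
        · exact hv.bd l hl i hi
    have hw : ovr (TT Y X (n k)) v' U = U := by
      funext i
      unfold ovr
      split_ifs with h1
      · show ovr (TT Y X (n k)) U v i = U i
        simp [ovr, h1]
      · rfl
    have h1 : HasN Y v' m := htr v' fun f hf => by
      have := hcl v' hmod f hf
      rwa [hw] at this
    refine h1.modify (Q := TT Y X (n k)) fun i hi => ?_
    show v i = ovr (TT Y X (n k)) U v i
    simp [ovr, hi]

/-- `v` is a modification of `U` which is sparse at the scale `ρ` -/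
def Sp (ρ : ℕ → ℕ → ℕ) (Y : Sys S I) (X : Exh S) (U v : I → ℝ) : Prop :=
  ∃ n b : ℕ → ℕ, StrictMono n ∧
    (∀ k, ∀ i ∈ TT Y X (ρ (n k) (b k)), i ∉ TT Y X (n k) → v i = U i) ∧
    ∀ k, ∑ i ∈ TT Y X (n (k + 1)) \ TT Y X (n k), |v i - U i| ≤ b k

omit [Countable S] [DecidableEq S] [Countable I] in
theorem Sp.md {ρ : ℕ → ℕ → ℕ} (hρ : ∀ n b, b ≤ ρ n b) {U v : I → ℝ} {B : ℝ}
    (hB : ∀ i, |U i| ≤ B) {n b : ℕ → ℕ} (hn : StrictMono n)
    (h1 : ∀ k, ∀ i ∈ TT Y X (ρ (n k) (b k)), i ∉ TT Y X (n k) → v i = U i)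
    (h2 : ∀ k, ∑ i ∈ TT Y X (n (k + 1)) \ TT Y X (n k), |v i - U i| ≤ b k) :
    ∃ K0 : ℕ, ∀ K, K0 ≤ K → Md ρ n b Y X K U v := by
  obtain ⟨K1, hK1⟩ := exists_nat_ge B
  obtain ⟨K2, hK2⟩ := exists_nat_ge (∑ i ∈ TT Y X (n 0), |v i|)
  refine ⟨max K1 K2, fun K hK => ⟨fun k _ => h1 k, fun k _ => h2 k, fun k hk i hi => ?_⟩⟩
  have hkn : (k : ℝ) ≤ n k := by exact_mod_cast hn.id_le k
  have hK1k : (K1 : ℝ) ≤ k := by exact_mod_cast ((le_max_left K1 K2).trans hK).trans hk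
  have hK2k : (K2 : ℝ) ≤ k := by exact_mod_cast ((le_max_right K1 K2).trans hK).trans hk
  by_cases h0 : i ∈ TT Y X (n 0)
  · have h3 := Finset.single_le_sum (f := fun i => |v i|) (fun _ _ => abs_nonneg _) h0
    have h4 : (0 : ℝ) ≤ n k := Nat.cast_nonneg _
    linarith
  · -- find the shell
    have hex : ∃ j, i ∈ TT Y X (n (j + 1)) := by
      refine ⟨k, TT_mono Y X (hn.monotone (Nat.le_succ k)) hi⟩
    classical
    set j := Nat.find hex with hj
    have hj1 : i ∈ TT Y X (n (j + 1)) := Nat.find_spec hex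
    have hj2 : i ∉ TT Y X (n j) := by
      rcases Nat.eq_zero_or_pos j with h | h
      · rw [h]; exact h0
      · have := Nat.find_min hex (show j - 1 < j by omega)
        rwa [Nat.sub_add_cancel h] at this
    have hjk : j + 1 ≤ k := by
      rcases Nat.eq_zero_or_pos k with h | h
      · subst h; exact absurd hi h0
      · have : j ≤ k - 1 := Nat.find_min' hex (by rwa [Nat.sub_add_cancel h])
        omega
    by_cases heq : v i = U i
    · rw [heq]
      have h3 := hB i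
      have h4 : (0 : ℝ) ≤ n k := Nat.cast_nonneg _
      linarith
    · have hlt : ρ (n j) (b j) < n (j + 1) := by
        by_contra hcon
        push Not at hcon
        exact heq (h1 j i (TT_mono Y X hcon hj1) hj2)
      have h5 : (b j : ℝ) ≤ n k := by
        have h6 : b j ≤ n k := ((hρ (n j) (b j)).trans hlt.le).trans (hn.monotone hjk)
        exact_mod_cast h6
      have h7 := Finset.single_le_sum (f := fun i => |v i - U i|) (fun _ _ => abs_nonneg _)
        (Finset.mem_sdiff.2 ⟨hj1, hj2⟩)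
      have h8 := h2 j
      have h9 := hB i
      have h10 : |v i| ≤ |v i - U i| + |U i| := by
        have := abs_add_le (v i - U i) (U i)
        rwa [sub_add_cancel] at this
      linarith

variable (Y)

/-- **Main theorem (abstract form).** -/
theorem main2 (X : Exh S) (hu : Measurable u) (hbd : ∀ᵐ ω ∂P, ∃ B : ℝ, ∀ i, |u ω i| ≤ B) :
    ∃ ρ : ℕ → ℕ → ℕ, ∀ᵐ ω ∂P, ∀ v : I → ℝ, Sp ρ Y X (u ω) v → ∀ m,
        (HasN Y v m ↔ HasN Y (u ω) m) := by
  obtain ⟨fs, hfs, hdense⟩ := exists_dense_fs (S := S)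
  obtain ⟨ρ, hρ, hae⟩ := exists_rho (P := P) Y X hu fs
  refine ⟨ρ, ?_⟩
  filter_upwards [hbd, hae] with ω hB hω v hv m
  obtain ⟨B, hB⟩ := hB
  obtain ⟨n, b, hn, h1, h2⟩ := hv
  obtain ⟨K0, hK0⟩ := Sp.md hρ hB hn h1 h2
  obtain ⟨K1, hK1⟩ := hω
  obtain ⟨K2, hK2⟩ := exists_nat_ge B
  have hU : ∀ i, |u ω i| ≤ ((max K0 (max K1 K2) : ℕ) : ℝ) := fun i =>
    (hB i).trans (hK2.trans (by exact_mod_cast (le_max_right K1 K2).trans (le_max_right K0 _)))
  refine dimension2 hn hfs hdense hU (fun k hk b' s hs f hf => ?_) (hK0 _ (le_max_left _ _)) m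
  by_contra hcon
  push Not at hcon
  exact hK1 k (((le_max_left K1 K2).trans (le_max_right K0 _)).trans hk) b' ⟨s, hs, f, hf, hcon⟩

end Pool.Agent.X187.EA
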