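import Pool.Agent.X187.EA.Lat
import Pool.Agent.X187.EA.Sparse

set_option autoImplicit false

/-! The Edwards–Anderson system on `ℤ^d` with fields: sparse modifications. -/

open MeasureTheory Filter Topology Set
open scoped ENNReal

namespace Pool.Agent.X187.EA

variable {d : ℕ}

/-- cubes -/
noncomputable def cb (d n : ℕ) : Finset (Fin d → ℤ) := Finset.Icc (fun _ => -(n : ℤ)) (fun _ => (n : ℤ))

theorem sdiff_disjSum {α γ : Type} [DecidableEq α] [DecidableEq γ] (A A' : Finset α)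
    (B B' : Finset γ) : A.disjSum B \ A'.disjSum B' = (A \ A').disjSum (B \ B') := by
  ext i
  rcases i with a | b
  · simp [Finset.mem_sdiff]
  · simp [Finset.mem_sdiff]

/-- `(J', h')` is a modification of `(J, 0)` which is sparse at the scale `ρ` -/
def SpL (ρ : ℕ → ℕ → ℕ) (J J' : (Fin d → ℤ) × Fin d → ℝ) (h' : (Fin d → ℤ) → ℝ) : Prop :=
  ∃ n b : ℕ → ℕ, StrictMono n ∧
    (∀ k, ∀ e ∈ eds (cb d (ρ (n k) (b k))), e ∉ eds (cb d (n k)) → J' e = J e) ∧
    (∀ k, ∀ x ∈ cb d (ρ (n k) (b k)), x ∉ cb d (n k) → h' x = 0) ∧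
    ∀ k, ∑ e ∈ eds (cb d (n (k + 1))) \ eds (cb d (n k)), |J' e - J e| +
      ∑ x ∈ cb d (n (k + 1)) \ cb d (n k), |h' x| ≤ b k

/-- **Main theorem for the lattice.** -/
theorem lattice2 {Ω : Type} [MeasurableSpace Ω] (P : Measure Ω) [IsProbabilityMeasure P]
    {β : Ω → ℝ} (hβ : Measurable β) {J : Ω → (Fin d → ℤ) × Fin d → ℝ} (hJ : Measurable J)
    (hb : ∀ᵐ ω ∂P, ∃ B : ℝ, ∀ e, |J ω e| ≤ B) :
    ∃ ρ : ℕ → ℕ → ℕ, ∀ᵐ ω ∂P, ∀ (J' : (Fin d → ℤ) × Fin d → ℝ) (h' : (Fin d → ℤ) → ℝ),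
      SpL ρ (J ω) J' h' →
      ∀ m, HasN (EAs d) (env (β ω) J' h') m ↔ HasN (EAs d) (env (β ω) (J ω) fun _ => 0) m := by
  have hu : Measurable fun ω => env (β ω) (J ω) (fun _ => (0 : ℝ)) := by
    apply measurable_pi_lambda
    intro i
    rcases i with e | x
    · exact hβ.mul ((measurable_pi_apply e).comp hJ)
    · exact hβ.mul measurable_const
  have hbd : ∀ᵐ ω ∂P, ∃ B : ℝ, ∀ i, |env (β ω) (J ω) (fun _ => (0 : ℝ)) i| ≤ B := by
    filter_upwards [hb] with ω hω
    obtain ⟨B, hB⟩ := hω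
    have hB0 : |β ω| * |B| ≥ 0 := by positivity
    refine ⟨|β ω| * |B|, fun i => ?_⟩
    rcases i with e | x
    · show |β ω * J ω e| ≤ _
      rw [abs_mul]
      exact mul_le_mul_of_nonneg_left ((hB e).trans (le_abs_self B)) (abs_nonneg _)
    · show |β ω * 0| ≤ _
      rw [mul_zero, abs_zero]
      exact hB0
  obtain ⟨ρ, hρ⟩ := main2 (P := P) (EAs d) (cubes d) hu hbd
  refine ⟨fun n b => ρ n (n * b), ?_⟩
  filter_upwards [hρ] with ω hω J' h' hs m
  obtain ⟨n, b, hn, h1, h2, h3⟩ := hs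
  obtain ⟨K, hK⟩ := exists_nat_ge |β ω|
  refine hω (env (β ω) J' h') ⟨fun k => n (k + K), fun k => n (k + K) * b (k + K),
    fun i j hij => hn (Nat.add_lt_add_right hij K), fun k i hi hi2 => ?_, fun k => ?_⟩ m
  · rcases i with e | x
    · show β ω * J' e = β ω * J ω e
      rw [h1 (k + K) e (Finset.inl_mem_disjSum.1 hi) fun h => hi2 (Finset.inl_mem_disjSum.2 h)]
    · show β ω * h' x = β ω * 0
      rw [h2 (k + K) x (Finset.inr_mem_disjSum.1 hi) fun h => hi2 (Finset.inr_mem_disjSum.2 h)]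
  · have e1 : TT (EAs d) (cubes d) (n (k + 1 + K)) \ TT (EAs d) (cubes d) (n (k + K)) =
        (eds (cb d (n (k + 1 + K))) \ eds (cb d (n (k + K)))).disjSum
          (cb d (n (k + 1 + K)) \ cb d (n (k + K))) := sdiff_disjSum _ _ _ _
    rw [e1, Finset.sum_disjSum]
    have e2 : ∀ e, |env (β ω) J' h' (Sum.inl e) - env (β ω) (J ω) (fun _ => (0 : ℝ)) (Sum.inl e)| =
        |β ω| * |J' e - J ω e| := fun e => by
      show |β ω * J' e - β ω * J ω e| = _
      rw [← mul_sub, abs_mul]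
    have e3 : ∀ x, |env (β ω) J' h' (Sum.inr x) - env (β ω) (J ω) (fun _ => (0 : ℝ)) (Sum.inr x)| =
        |β ω| * |h' x| := fun x => by
      show |β ω * h' x - β ω * 0| = _
      rw [mul_zero, sub_zero, abs_mul]
    simp only [e2, e3]
    rw [← Finset.mul_sum, ← Finset.mul_sum, ← mul_add]
    have h4 := h3 (k + K)
    rw [show k + K + 1 = k + 1 + K by ring] at h4
    have h5 : |β ω| ≤ n (k + K) := by
      refine hK.trans ?_
      exact_mod_cast (Nat.le_add_left K k).trans (hn.id_le (k + K))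
    push_cast
    exact mul_le_mul h5 h4 (add_nonneg (Finset.sum_nonneg fun _ _ => abs_nonneg _)
      (Finset.sum_nonneg fun _ _ => abs_nonneg _)) (Nat.cast_nonneg _)

/-! ### Translates of finite sets -/

theorem rich {S I G : Type} [DecidableEq S] [DecidableEq I] (Y : Sys S I) (X : Exh S)
    (Pk : ℕ → G → Finset I) (hin : ∀ k z, ∃ r, Pk k z ⊆ TT Y X r)
    (hesc : ∀ (k : ℕ) (Λ : Finset S), {z | ∃ i ∈ Pk k z, i ∈ Y.T Λ}.Finite)
    (ρ : ℕ → ℕ → ℕ) (b : ℕ → ℕ) :
    ∃ R : List G → Finset G, ∀ z : ℕ → G, (∀ k, z k ∉ R (hist z k)) →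
      ∃ n : ℕ → ℕ, StrictMono n ∧ ∀ U v : I → ℝ, (∀ i, (∀ k, i ∉ Pk k (z k)) → v i = U i) →
        (∀ k, ∑ i ∈ Pk k (z k), |v i - U i| ≤ b k) →
        (∀ k, ∀ i ∈ TT Y X (ρ (n k) (b k)), i ∉ TT Y X (n k) → v i = U i) ∧
        ∀ k, ∑ i ∈ TT Y X (n (k + 1)) \ TT Y X (n k), |v i - U i| ≤ b k := by
  choose r hr using hin
  set N : List G → ℕ := fun l => List.rec 0
    (fun z l n => max (max (n + 1) (ρ n (b l.length))) (r l.length z)) l with hN
  have hN1 : ∀ z l, N (z :: l) = max (max (N l + 1) (ρ (N l) (b l.length))) (r l.length z) :=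
    fun z l => rfl
  refine ⟨fun l => (hesc l.length (X.E (max (ρ (N l) (b l.length)) (N l)))).toFinset,
    fun z hz => ⟨fun k => N (hist z k), strictMono_nat_of_lt_succ fun k => ?_, ?_⟩⟩
  · show N (hist z k) < N (z k :: hist z k)
    rw [hN1]
    exact (Nat.lt_succ_self _).trans_le ((le_max_left _ _).trans (le_max_left _ _))
  · have hs : ∀ k, N (hist z (k + 1)) =
        max (max (N (hist z k) + 1) (ρ (N (hist z k)) (b k))) (r k (z k)) := by
      intro k
      show N (z k :: hist z k) = _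
      rw [hN1, hist_length]
    have hmono : Monotone fun k => N (hist z k) := monotone_nat_of_le_succ fun k => by
      rw [hs]
      exact (Nat.le_succ _).trans ((le_max_left _ _).trans (le_max_left _ _))
    -- the patch `k` avoids the large box and is contained in the next one
    have hav : ∀ k, ∀ i ∈ Pk k (z k), i ∉ TT Y X (max (ρ (N (hist z k)) (b k)) (N (hist z k))) := by
      intro k i hi hi2
      have h1 := hz k
      rw [Set.Finite.mem_toFinset, hist_length] at h1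
      exact h1 ⟨i, hi, hi2⟩
    have hinn : ∀ k, ∀ i ∈ Pk k (z k), i ∈ TT Y X (N (hist z (k + 1))) := by
      intro k i hi
      refine TT_mono Y X ?_ (hr k (z k) hi)
      rw [hs]
      exact le_max_right _ _
    intro U v hoff hb
    -- in the shell `k`, only the patch `k` matters
    have honly : ∀ k i, i ∉ TT Y X (N (hist z k)) → i ∈ TT Y X (N (hist z (k + 1))) →
        i ∉ Pk k (z k) → v i = U i := by
      intro k i h1 h2 h3
      apply hoff
      intro j hj
      rcases lt_trichotomy j k with h | h | h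
      · exact h1 (TT_mono Y X (hmono (show j + 1 ≤ k from h)) (hinn j i hj))
      · subst h; exact h3 hj
      · exact hav j i hj (TT_mono Y X ((hmono (show k + 1 ≤ j from h)).trans (le_max_right _ _)) h2)
    constructor
    · intro k i hi hi2
      refine honly k i hi2 (TT_mono Y X ?_ hi) fun h3 => ?_
      · rw [hs]
        exact (le_max_right _ _).trans (le_max_left _ _)
      · exact hav k i h3 (TT_mono Y X (le_max_left _ _) hi)
    · intro k
      refine le_trans ?_ (hb k)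
      have h1 : ∑ i ∈ TT Y X (N (hist z (k + 1))) \ TT Y X (N (hist z k)), |v i - U i| =
          ∑ i ∈ (TT Y X (N (hist z (k + 1))) \ TT Y X (N (hist z k))) ∩ Pk k (z k), |v i - U i| := by
        symm
        apply Finset.sum_subset Finset.inter_subset_left
        intro i hi hi2
        have h2 := Finset.mem_sdiff.1 hi
        rw [honly k i h2.2 h2.1 fun h3 => hi2 (Finset.mem_inter.2 ⟨hi, h3⟩), sub_self, abs_zero]
      rw [h1]
      exact Finset.sum_le_sum_of_subset_of_nonneg Finset.inter_subset_right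
        fun i _ _ => abs_nonneg _

/-- Rewritings on sparse translates of finite sets are sparse at the scale `ρ`. -/
theorem rich_lattice (ρ : ℕ → ℕ → ℕ) (F : ℕ → Finset (Fin d → ℤ)) (A : ℕ → ℝ) :
    ∃ R : List (Fin d → ℤ) → Finset (Fin d → ℤ), ∀ z : ℕ → (Fin d → ℤ),
      (∀ k, z k ∉ R ((List.range k).map z)) →
        ∀ (J J' : (Fin d → ℤ) × Fin d → ℝ) (h' : (Fin d → ℤ) → ℝ), (∀ e, |J e| ≤ 1) →
          (∀ e, (∀ k, e ∉ eds ((F k).image fun c => z k + c)) → J' e = J e) →
          (∀ k, ∀ e ∈ eds ((F k).image fun c => z k + c), |J' e| ≤ A k) →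
          (∀ x, (∀ k, x ∉ (F k).image fun c => z k + c) → h' x = 0) →
          (∀ k, ∀ x ∈ (F k).image fun c => z k + c, |h' x| ≤ A k) → SpL ρ J J' h' := by
  set b : ℕ → ℕ := fun k => (2 * ((F k).card * d) + (F k).card) * ⌈|A k| + 1⌉₊ with hb
  obtain ⟨R, hR⟩ := rich (EAs d) (cubes d) (pat F) (fun k z => by
    obtain ⟨r, hr⟩ := (cubes d).sub ((F k).image fun c => z + c)
    refine ⟨r, fun i hi => ?_⟩
    obtain ⟨x, h1, h2⟩ := ((EAs d).memT i _).1 hi
    exact ((EAs d).memT i _).2 ⟨x, h1, hr r le_rfl h2⟩) (esc_pat F) ρ b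
  refine ⟨fun l => R l.reverse, fun z hz J J' h' hJ h1 h2 h3 h4 => ?_⟩
  have hz' : ∀ k, z k ∉ R (hist z k) := fun k => by rw [hist_eq]; exact hz k
  obtain ⟨n, hn, hU⟩ := hR z hz'
  obtain ⟨h5, h6⟩ := hU (Sum.elim J fun _ => 0) (Sum.elim J' h') (fun i hi => by
    rcases i with e | x
    · exact h1 e fun k hk => hi k (Finset.inl_mem_disjSum.2 hk)
    · exact h3 x fun k hk => hi k (Finset.inr_mem_disjSum.2 hk)) (fun k => by
    have key : ∀ i ∈ pat F k (z k),
        |(Sum.elim J' h' : _ → ℝ) i - (Sum.elim J fun _ => 0 : _ → ℝ) i| ≤ (⌈|A k| + 1⌉₊ : ℝ) := by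
      intro i hi
      refine le_trans ?_ (Nat.le_ceil _)
      rcases i with e | x
      · have h7 := h2 k e (Finset.inl_mem_disjSum.1 hi)
        have h8 := hJ e
        have h9 := abs_sub (J' e) (J e)
        have h10 := le_abs_self (A k)
        show |J' e - J e| ≤ _
        linarith
      · have h7 := h4 k x (Finset.inr_mem_disjSum.1 hi)
        have h10 := le_abs_self (A k)
        show |h' x - 0| ≤ _
        rw [sub_zero]
        linarith
    have h7 := Finset.sum_le_card_nsmul _ _ _ key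
    rw [nsmul_eq_mul] at h7
    refine h7.trans ?_
    rw [hb]
    push_cast
    refine mul_le_mul_of_nonneg_right ?_ (Nat.cast_nonneg _)
    exact_mod_cast card_pat F k (z k))
  refine ⟨n, b, hn, fun k e he he2 => ?_, fun k x hx hx2 => ?_, fun k => ?_⟩
  · exact h5 k (Sum.inl e) (Finset.inl_mem_disjSum.2 he) fun h => he2 (Finset.inl_mem_disjSum.1 h)
  · exact h5 k (Sum.inr x) (Finset.inr_mem_disjSum.2 hx) fun h => hx2 (Finset.inr_mem_disjSum.1 h)
  · have h7 := h6 k
    have e1 : TT (EAs d) (cubes d) (n (k + 1)) \ TT (EAs d) (cubes d) (n k) =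
        (eds (cb d (n (k + 1))) \ eds (cb d (n k))).disjSum
          (cb d (n (k + 1)) \ cb d (n k)) := sdiff_disjSum _ _ _ _
    rw [e1, Finset.sum_disjSum] at h7
    simpa using h7

end Pool.Agent.X187.EA
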