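import Mathlib

set_option autoImplicit false

/-! Finite-volume Gibbs averages of spin systems with real environments, by flips. -/

open MeasureTheory Filter Topology Set
open scoped ENNReal symmDiff

namespace Pool.Agent.X187.EA

/-- a system of interactions `u_i χ_i(σ)` -/
structure Sys (S I : Type) where
  supp : I → Finset S
  chi : I → (S → Bool) → ℝ
  loc : ∀ i σ σ', (∀ x ∈ supp i, σ x = σ' x) → chi i σ = chi i σ'
  le : ∀ i σ, |chi i σ| ≤ 1
  cont : ∀ i, Continuous (chi i)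
  T : Finset S → Finset I
  memT : ∀ i Λ, i ∈ T Λ ↔ ∃ x ∈ supp i, x ∈ Λ

variable {S I : Type} [DecidableEq S]

/-- the configuration `σ` flipped on `B` -/
def fl (B : Finset S) (σ : S → Bool) : S → Bool := fun x => if x ∈ B then !σ x else σ x

theorem fl_fl (B C : Finset S) (σ : S → Bool) : fl B (fl C σ) = fl (B ∆ C) σ := by
  funext x
  unfold fl
  by_cases h1 : x ∈ B <;> by_cases h2 : x ∈ C <;> simp [h1, h2, Finset.mem_symmDiff]

theorem fl_empty (σ : S → Bool) : fl ∅ σ = σ := by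
  funext x
  simp [fl]

theorem continuous_fl (B : Finset S) : Continuous (fl B) := by
  apply continuous_pi
  intro x
  unfold fl
  by_cases h : x ∈ B
  · simp only [h, if_true]
    exact (continuous_of_discreteTopology (f := fun b : Bool => !b)).comp
      (continuous_apply (A := fun _ : S => Bool) x)
  · simp only [h, if_false]
    exact continuous_apply (A := fun _ : S => Bool) x

/-- sum over all flips inside `Λ` -/
def EE (Λ : Finset S) (F : (S → Bool) → ℝ) (σ : S → Bool) : ℝ := ∑ B ∈ Λ.powerset, F (fl B σ)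

theorem EE_fl {Λ C : Finset S} (hC : C ⊆ Λ) (F : (S → Bool) → ℝ) (σ : S → Bool) :
    EE Λ F (fl C σ) = EE Λ F σ := by
  unfold EE
  apply Finset.sum_nbij' (fun B => B ∆ C) (fun B => B ∆ C)
  · intro B hB
    rw [Finset.mem_powerset] at hB ⊢
    exact (symmDiff_le_sup).trans (sup_le hB hC)
  · intro B hB
    rw [Finset.mem_powerset] at hB ⊢
    exact (symmDiff_le_sup).trans (sup_le hB hC)
  · intro B _
    exact symmDiff_symmDiff_cancel_right C B
  · intro B _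
    exact symmDiff_symmDiff_cancel_right C B
  · intro B _
    rw [fl_fl]

/-- invariance under flips inside `Λ` -/
def Inv (Λ : Finset S) (k : (S → Bool) → ℝ) : Prop := ∀ C ⊆ Λ, ∀ σ, k (fl C σ) = k σ

theorem inv_EE (Λ : Finset S) (F : (S → Bool) → ℝ) : Inv Λ (EE Λ F) := fun _ hC σ => EE_fl hC F σ

theorem Inv.mono {Λ Λ' : Finset S} (h : Λ' ⊆ Λ) {k : (S → Bool) → ℝ} (hk : Inv Λ k) : Inv Λ' k :=
  fun C hC σ => hk C (hC.trans h) σ

theorem EE_mul {Λ : Finset S} {k : (S → Bool) → ℝ} (hk : Inv Λ k) (F : (S → Bool) → ℝ)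
    (σ : S → Bool) : EE Λ (fun τ => k τ * F τ) σ = k σ * EE Λ F σ := by
  unfold EE
  rw [Finset.mul_sum]
  refine Finset.sum_congr rfl fun B hB => ?_
  show k (fl B σ) * F (fl B σ) = _
  rw [hk B (Finset.mem_powerset.1 hB)]

theorem EE_EE {Λ Λ' : Finset S} (h : Λ' ⊆ Λ) (F : (S → Bool) → ℝ) (σ : S → Bool) :
    EE Λ (EE Λ' F) σ = 2 ^ Λ'.card * EE Λ F σ := by
  have h1 : EE Λ (EE Λ' F) σ = ∑ B' ∈ Λ'.powerset, EE Λ F (fl B' σ) := by
    unfold EE
    rw [Finset.sum_comm]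
    refine Finset.sum_congr rfl fun B' _ => Finset.sum_congr rfl fun B _ => ?_
    rw [fl_fl, fl_fl, symmDiff_comm]
  rw [h1, Finset.sum_congr rfl fun B' hB' => EE_fl ((Finset.mem_powerset.1 hB').trans h) F σ,
    Finset.sum_const, Finset.card_powerset]
  simp

theorem EE_pos {Λ : Finset S} {F : (S → Bool) → ℝ} (hF : ∀ σ, 0 < F σ) (σ : S → Bool) :
    0 < EE Λ F σ :=
  Finset.sum_pos (fun _ _ => hF _) ⟨∅, Finset.empty_mem_powerset _⟩

variable (Y : Sys S I)

/-- the Hamiltonian `∑ u_i χ_i(σ)` over `i` with support meeting `Λ` -/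
def HH (u : I → ℝ) (Λ : Finset S) (σ : S → Bool) : ℝ := ∑ i ∈ Y.T Λ, u i * Y.chi i σ

/-- the finite-volume average -/
noncomputable def gg (u : I → ℝ) (Λ : Finset S) (f : (S → Bool) → ℝ) (σ : S → Bool) : ℝ :=
  EE Λ (fun τ => Real.exp (HH Y u Λ τ) * f τ) σ / EE Λ (fun τ => Real.exp (HH Y u Λ τ)) σ

/-- the tilt `∑_{i ∈ Q} t_i χ_i` -/
def hh (t : I → ℝ) (Q : Finset I) (σ : S → Bool) : ℝ := ∑ i ∈ Q, t i * Y.chi i σ

theorem chi_inv {i : I} {Λ : Finset S} (h : i ∉ Y.T Λ) : Inv Λ (Y.chi i) := by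
  intro C hC σ
  apply Y.loc
  intro x hx
  have : x ∉ C := fun h2 => h ((Y.memT i Λ).2 ⟨x, hx, hC h2⟩)
  simp [fl, this]

theorem hh_inv {Q : Finset I} {Λ : Finset S} (t : I → ℝ) (h : ∀ i ∈ Q, i ∉ Y.T Λ) :
    Inv Λ (hh Y t Q) := by
  intro C hC σ
  unfold hh
  exact Finset.sum_congr rfl fun i hi => by rw [chi_inv Y (h i hi) C hC σ]

theorem exp_inv {Λ : Finset S} {k : (S → Bool) → ℝ} (h : Inv Λ k) :
    Inv Λ (fun σ => Real.exp (k σ)) := fun C hC σ => by
  show Real.exp (k (fl C σ)) = Real.exp (k σ)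
  rw [h C hC σ]

theorem gg_inv (u : I → ℝ) (Λ : Finset S) (f : (S → Bool) → ℝ) : Inv Λ (gg Y u Λ f) := by
  intro C hC σ
  unfold gg
  rw [EE_fl hC, EE_fl hC]

theorem gg_mul {Λ : Finset S} {k : (S → Bool) → ℝ} (hk : Inv Λ k) (u : I → ℝ)
    (f : (S → Bool) → ℝ) (σ : S → Bool) :
    gg Y u Λ (fun τ => k τ * f τ) σ = k σ * gg Y u Λ f σ := by
  unfold gg
  have : (fun τ => Real.exp (HH Y u Λ τ) * (k τ * f τ)) =
      fun τ => k τ * (Real.exp (HH Y u Λ τ) * f τ) := by funext τ; ring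
  rw [this, EE_mul hk, mul_div_assoc]

variable [DecidableEq I]

theorem HH_split {Λ Λ' : Finset S} (h : Λ' ⊆ Λ) (u : I → ℝ) (σ : S → Bool) :
    HH Y u Λ σ = hh Y u (Y.T Λ \ Y.T Λ') σ + HH Y u Λ' σ := by
  unfold HH hh
  rw [Finset.sum_sdiff]
  intro i hi
  obtain ⟨x, h1, h2⟩ := (Y.memT i Λ').1 hi
  exact (Y.memT i Λ).2 ⟨x, h1, h h2⟩

/-- consistency of the finite-volume averages -/
theorem gg_gg {Λ Λ' : Finset S} (h : Λ' ⊆ Λ) (u : I → ℝ) (f : (S → Bool) → ℝ) (σ : S → Bool) :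
    gg Y u Λ (gg Y u Λ' f) σ = gg Y u Λ f σ := by
  have hk : Inv Λ' (fun τ => Real.exp (hh Y u (Y.T Λ \ Y.T Λ') τ)) :=
    exp_inv (hh_inv Y u fun i hi => (Finset.mem_sdiff.1 hi).2)
  have hexp : ∀ τ, Real.exp (HH Y u Λ τ) =
      Real.exp (hh Y u (Y.T Λ \ Y.T Λ') τ) * Real.exp (HH Y u Λ' τ) := fun τ => by
    rw [HH_split Y h, Real.exp_add]
  set k : (S → Bool) → ℝ := fun τ => Real.exp (hh Y u (Y.T Λ \ Y.T Λ') τ) with hkdef
  set w : (S → Bool) → ℝ := fun τ => Real.exp (HH Y u Λ' τ) with hw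
  set F : (S → Bool) → ℝ := gg Y u Λ' f with hF
  have hZ : ∀ τ, 0 < EE Λ' w τ := fun τ => EE_pos (fun τ => Real.exp_pos _) τ
  have hFZ : ∀ τ, F τ * EE Λ' w τ = EE Λ' (fun τ => w τ * f τ) τ := fun τ => by
    rw [hF]
    unfold gg
    exact div_mul_cancel₀ _ (hZ τ).ne'
  have e1 : ∀ τ, EE Λ' (fun τ => k τ * (w τ * F τ)) τ = EE Λ' (fun τ => k τ * (w τ * f τ)) τ := by
    intro τ
    rw [EE_mul hk, EE_mul hk]
    congr 1
    have : (fun τ => w τ * F τ) = fun τ => F τ * w τ := by funext τ; ring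
    rw [this, EE_mul (gg_inv Y u Λ' f)]
    exact hFZ τ
  have e2 : EE Λ (fun τ => k τ * (w τ * F τ)) σ = EE Λ (fun τ => k τ * (w τ * f τ)) σ := by
    have h1 := EE_EE h (fun τ => k τ * (w τ * F τ)) σ
    have h2 := EE_EE h (fun τ => k τ * (w τ * f τ)) σ
    have h3 : EE Λ (EE Λ' (fun τ => k τ * (w τ * F τ))) σ =
        EE Λ (EE Λ' (fun τ => k τ * (w τ * f τ))) σ := by
      congr 1
      funext τ
      exact e1 τ
    rw [h1, h2] at h3
    exact mul_left_cancel₀ (by positivity) h3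
  unfold gg
  congr 1
  have e3 : (fun τ => Real.exp (HH Y u Λ τ) * F τ) = fun τ => k τ * (w τ * F τ) := by
    funext τ; rw [hexp]; ring
  have e4 : (fun τ => Real.exp (HH Y u Λ τ) * f τ) = fun τ => k τ * (w τ * f τ) := by
    funext τ; rw [hexp]; ring
  rw [e4, ← e2, ← e3]

/-- change of finitely many parameters -/
theorem gg_tilt {u v : I → ℝ} {Q : Finset I} (huv : ∀ i, i ∉ Q → v i = u i) (Λ : Finset S)
    (f : (S → Bool) → ℝ) (σ : S → Bool) :
    gg Y v Λ f σ * gg Y u Λ (fun τ => Real.exp (hh Y (fun i => v i - u i) Q τ)) σ =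
      gg Y u Λ (fun τ => Real.exp (hh Y (fun i => v i - u i) Q τ) * f τ) σ := by
  set t : I → ℝ := fun i => v i - u i with ht
  set k : (S → Bool) → ℝ := fun τ => Real.exp (- hh Y t (Q \ Y.T Λ) τ) with hk
  have hkinv : Inv Λ k := by
    have h1 : Inv Λ (fun τ => - hh Y t (Q \ Y.T Λ) τ) := by
      intro C hC τ
      have := hh_inv Y t (Q := Q \ Y.T Λ) (Λ := Λ) (fun i hi => (Finset.mem_sdiff.1 hi).2) C hC τ
      show - _ = - _
      rw [this]
    exact exp_inv h1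
  have hH : ∀ τ, HH Y v Λ τ = - hh Y t (Q \ Y.T Λ) τ + (HH Y u Λ τ + hh Y t Q τ) := by
    intro τ
    have h1 : HH Y v Λ τ = HH Y u Λ τ + ∑ i ∈ Y.T Λ, t i * Y.chi i τ := by
      unfold HH
      rw [← Finset.sum_add_distrib]
      refine Finset.sum_congr rfl fun i _ => ?_
      simp only [ht]
      ring
    have h2 : ∑ i ∈ Y.T Λ, t i * Y.chi i τ = ∑ i ∈ Q ∩ Y.T Λ, t i * Y.chi i τ := by
      symm
      apply Finset.sum_subset Finset.inter_subset_right
      intro i hi hi2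
      have : i ∉ Q := fun h => hi2 (Finset.mem_inter.2 ⟨h, hi⟩)
      simp only [ht, huv i this, sub_self, zero_mul]
    have h3 : hh Y t Q τ = hh Y t (Q \ Y.T Λ) τ + ∑ i ∈ Q ∩ Y.T Λ, t i * Y.chi i τ := by
      unfold hh
      rw [← Finset.sum_union (Finset.disjoint_sdiff_inter Q (Y.T Λ)), Finset.sdiff_union_inter]
    rw [h1, h2, h3]
    ring
  have hexp : ∀ τ, Real.exp (HH Y v Λ τ) =
      k τ * (Real.exp (HH Y u Λ τ) * Real.exp (hh Y t Q τ)) := fun τ => by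
    rw [hH, Real.exp_add, Real.exp_add]
  have e1 : (fun τ => Real.exp (HH Y v Λ τ) * f τ) =
      fun τ => k τ * (Real.exp (HH Y u Λ τ) * (Real.exp (hh Y t Q τ) * f τ)) := by
    funext τ; rw [hexp]; ring
  have e2 : (fun τ => Real.exp (HH Y v Λ τ)) =
      fun τ => k τ * (Real.exp (HH Y u Λ τ) * Real.exp (hh Y t Q τ)) := by
    funext τ; rw [hexp]
  unfold gg
  rw [e1, e2, EE_mul hkinv, EE_mul hkinv]
  have hk0 : k σ ≠ 0 := (Real.exp_pos _).ne'
  have hA : EE Λ (fun τ => Real.exp (HH Y u Λ τ) * Real.exp (hh Y t Q τ)) σ ≠ 0 :=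
    (EE_pos (fun τ => mul_pos (Real.exp_pos _) (Real.exp_pos _)) σ).ne'
  have hB : EE Λ (fun τ => Real.exp (HH Y u Λ τ)) σ ≠ 0 := (EE_pos (fun τ => Real.exp_pos _) σ).ne'
  field_simp

omit [DecidableEq I] in
theorem gg_congr {u v : I → ℝ} {Λ : Finset S} (h : ∀ i ∈ Y.T Λ, u i = v i)
    (f : (S → Bool) → ℝ) (σ : S → Bool) : gg Y u Λ f σ = gg Y v Λ f σ := by
  have : ∀ τ, HH Y u Λ τ = HH Y v Λ τ := fun τ =>
    Finset.sum_congr rfl fun i hi => by rw [h i hi]
  unfold gg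
  simp only [this]

omit [DecidableEq I] in
theorem continuous_gg (Λ : Finset S) {f : (S → Bool) → ℝ} (hf : Continuous f) :
    Continuous (fun p : (I → ℝ) × (S → Bool) => gg Y p.1 Λ f p.2) := by
  have hH : ∀ B : Finset S, Continuous (fun p : (I → ℝ) × (S → Bool) =>
      HH Y p.1 Λ (fl B p.2)) := by
    intro B
    unfold HH
    refine continuous_finsetSum _ fun i _ => ?_
    exact ((continuous_apply i).comp continuous_fst).mul
      ((Y.cont i).comp ((continuous_fl B).comp continuous_snd))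
  unfold gg EE
  refine Continuous.div ?_ ?_ ?_
  · refine continuous_finsetSum _ fun B _ => ?_
    exact (Real.continuous_exp.comp (hH B)).mul (hf.comp ((continuous_fl B).comp continuous_snd))
  · exact continuous_finsetSum _ fun B _ => Real.continuous_exp.comp (hH B)
  · intro p
    exact (EE_pos (Λ := Λ) (F := fun τ => Real.exp (HH Y p.1 Λ τ)) (fun τ => Real.exp_pos _) p.2).ne'

omit [DecidableEq I] in
theorem continuous_gg' (u : I → ℝ) (Λ : Finset S) {f : (S → Bool) → ℝ} (hf : Continuous f) :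
    Continuous (gg Y u Λ f) :=
  (continuous_gg Y Λ hf).comp (by fun_prop : Continuous fun σ : S → Bool => (u, σ))

end Pool.Agent.X187.EA
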